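import Mathlib
import Pool.Agent.H89.OD.L.H908R3_Disc_Cases

/-!
# The open disc cannot be split into three congruent pieces: definitions and tools

Versions for the open disc of the definitions in `H908R3_Disc_Defs` (closed disc). The points of the
certificates move in a neighbourhood of the points of the certificates for the closed disc.
-/

set_option autoImplicit false

namespace Pool.Agent.H89.OD

open Complex ComplexConjugate Filter Topology
open Pool.Agent.H908R3.Disc (E IsIso gP giP gR giR Par eta e2 E_mul E_zero norm_E E_re E_im E_add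
  norm_E_mul norm_gt_one cos_lt_sin conj_E E_two_pi)

/-- `A`, `F A`, `G A` is a partition of the open unit disc. -/
def Part (A : Set ℂ) (F G : ℂ → ℂ) : Prop :=
  A ∪ F '' A ∪ G '' A = Metric.ball (0 : ℂ) 1 ∧
  Disjoint A (F '' A) ∧ Disjoint A (G '' A) ∧ Disjoint (F '' A) (G '' A)

/-- the core statement in complex coordinates. -/
def Core : Prop := ∀ (A : Set ℂ) (F G : ℂ → ℂ), IsIso F → IsIso G → Part A F G → False

/-- the case of two equal centres. -/
def Core2 : Prop := ∀ (A : Set ℂ) (R g : ℂ → ℂ), IsIso R → IsIso g → R 0 = 0 →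
  Part A R g → False

/-- labelled configuration. `L1 = A`, `L2 = R A`, `L3 = g A`, `R` the rotation by `b`,
`gi` the inverse of `g`. -/
structure Cfg (b : ℝ) (g gi : ℂ → ℂ) (L1 L2 L3 : ℂ → Prop) : Prop where
  cov : ∀ x, ‖x‖ < 1 → L1 x ∨ L2 x ∨ L3 x
  in1 : ∀ x, L1 x → ‖x‖ < 1
  in2 : ∀ x, L2 x → ‖x‖ < 1
  in3 : ∀ x, L3 x → ‖x‖ < 1
  n12 : ∀ x, L1 x → ¬ L2 x
  n13 : ∀ x, L1 x → ¬ L3 x
  n23 : ∀ x, L2 x → ¬ L3 x
  r12 : ∀ x, L1 x → L2 (E b * x)
  r21 : ∀ x, L2 x → L1 (E (-b) * x)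
  g13 : ∀ x, L1 x → L3 (g x)
  g31 : ∀ x, L3 x → L1 (gi x)

/-- all configurations with orientation preserving (`o = true`) / reversing (`o = false`) `g`;
`d = 2 sin (e/2)`. -/
def CfgO (o : Bool) (b c e : ℝ) (L1 L2 L3 : ℂ → Prop) : Prop :=
  if o then Cfg b (gP c (2 * Real.sin (e/2))) (giP c (2 * Real.sin (e/2))) L1 L2 L3
  else Cfg b (gR c (2 * Real.sin (e/2))) (giR c (2 * Real.sin (e/2))) L1 L2 L3

/-- the normalised statement. -/
def Core3 : Prop := ∀ (o : Bool) (b c e : ℝ) (L1 L2 L3 : ℂ → Prop),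
  0 < b → b < Real.pi → 0 < e → e ≤ Real.pi / 3 → b / 2 ≤ c → c ≤ b / 2 + Real.pi →
  CfgO o b c e L1 L2 L3 → False

/-- unpacked configuration used by all certificates: both orientations. -/
structure Lab (b c e : ℝ) (L1 L2 L3 : ℂ → Prop) : Prop where
  cov : ∀ x, ‖x‖ < 1 → L1 x ∨ L2 x ∨ L3 x
  in1 : ∀ x, L1 x → ‖x‖ < 1
  in2 : ∀ x, L2 x → ‖x‖ < 1
  in3 : ∀ x, L3 x → ‖x‖ < 1
  n12 : ∀ x, L1 x → ¬ L2 x
  n13 : ∀ x, L1 x → ¬ L3 x
  n23 : ∀ x, L2 x → ¬ L3 x
  r12 : ∀ x, L1 x → L2 (E b * x)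
  r21 : ∀ x, L2 x → L1 (E (-b) * x)
  m1 : ∀ x, L1 x → ‖x - ((2 * Real.sin (e/2) : ℝ) : ℂ)‖ < 1
  m2 : ∀ x, L2 x → ‖x - ((2 * Real.sin (e/2) : ℝ) : ℂ) * E b‖ < 1
  m3 : ∀ x, L3 x → ‖x + ((2 * Real.sin (e/2) : ℝ) : ℂ) * E c‖ < 1

theorem CfgO.lab {o : Bool} {b c e : ℝ} {L1 L2 L3 : ℂ → Prop} (h : CfgO o b c e L1 L2 L3) :
    Lab b c e L1 L2 L3 := by
  have key : ∀ (g gi : ℂ → ℂ), Cfg b g gi L1 L2 L3 →
      (∀ x, ‖g x‖ = ‖x - ((2 * Real.sin (e/2) : ℝ) : ℂ)‖) →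
      (∀ x, ‖gi x‖ = ‖x + ((2 * Real.sin (e/2) : ℝ) : ℂ) * E c‖) → Lab b c e L1 L2 L3 := by
    intro g gi H hg hgi
    refine ⟨H.cov, H.in1, H.in2, H.in3, H.n12, H.n13, H.n23, H.r12, H.r21, ?_, ?_, ?_⟩
    · intro x hx
      rw [← hg]
      exact H.in3 _ (H.g13 x hx)
    · intro x hx
      have h1 := H.r21 x hx
      have h2 := H.in3 _ (H.g13 _ h1)
      rw [hg] at h2
      have h3 : x - ((2 * Real.sin (e/2) : ℝ) : ℂ) * E b
          = E b * (E (-b) * x - ((2 * Real.sin (e/2) : ℝ) : ℂ)) := by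
        have h4 : E b * E (-b) = 1 := by rw [E_mul]; simp [E_zero]
        linear_combination (-x) * h4
      rw [h3, norm_E_mul]
      exact h2
    · intro x hx
      have h1 := H.g31 x hx
      have h2 := H.in1 _ h1
      rw [hgi] at h2
      exact h2
  unfold CfgO at h
  cases o with
  | true =>
    simp only [if_true] at h
    refine key _ _ h ?_ ?_
    · intro x
      simp only [gP]
      rw [norm_E_mul]
    · intro x
      simp only [giP]
      have h4 : E c * E (-c) = 1 := by rw [E_mul]; simp [E_zero]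
      have h3 : x + ((2 * Real.sin (e/2) : ℝ) : ℂ) * E c
          = E c * (((2 * Real.sin (e/2) : ℝ) : ℂ) + E (-c) * x) := by
        linear_combination (-x) * h4
      rw [h3, norm_E_mul]
  | false =>
    simp only [Bool.false_eq_true, if_false] at h
    refine key _ _ h ?_ ?_
    · intro x
      simp only [gR]
      rw [norm_E_mul]
      rw [← Complex.norm_conj, map_sub, Complex.conj_conj, Complex.conj_ofReal]
    · intro x
      simp only [giR]
      have h4 : E (-c) * E c = 1 := by rw [E_mul]; simp [E_zero]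
      have h5 : ‖((2 * Real.sin (e/2) : ℝ) : ℂ) + E c * conj x‖
          = ‖((2 * Real.sin (e/2) : ℝ) : ℂ) + E (-c) * x‖ := by
        rw [← Complex.norm_conj, map_add, map_mul, Complex.conj_conj, Complex.conj_ofReal, conj_E]
      rw [h5]
      have h3 : x + ((2 * Real.sin (e/2) : ℝ) : ℂ) * E c
          = E c * (((2 * Real.sin (e/2) : ℝ) : ℂ) + E (-c) * x) := by
        linear_combination (-x) * h4
      rw [h3, norm_E_mul]

/-! ### moving points -/

/-- `1 < |f p|` is an open condition; the form used for labels -/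
theorem ev_gt {f : ℂ → ℂ} {p : ℂ} (hf : ContinuousAt f p) (h : ¬ ‖f p‖ ≤ 1) :
    ∀ᶠ z in 𝓝 p, ¬ ‖f z‖ < 1 := by
  have h1 : ∀ᶠ z in 𝓝 p, 1 < ‖f z‖ := hf.norm.eventually (lt_mem_nhds (not_le.1 h))
  filter_upwards [h1] with z hz
  exact not_lt.2 hz.le

/-- `|f p| < 1` is an open condition -/
theorem ev_lt {f : ℂ → ℂ} {p : ℂ} (hf : ContinuousAt f p) (h : ‖f p‖ < 1) :
    ∀ᶠ z in 𝓝 p, ‖f z‖ < 1 := hf.norm.eventually (gt_mem_nhds h)

/-- a property of the points near `q`, for the image `f z` of the points `z` near `p`, `f p = q` -/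
theorem ev_comp {f : ℂ → ℂ} {p q : ℂ} {P : ℂ → Prop} (hf : ContinuousAt f p) (hq : f p = q)
    (h : ∀ᶠ w in 𝓝 q, P w) : ∀ᶠ z in 𝓝 p, P (f z) := by
  subst hq
  exact hf.eventually h

/-- near a point of the circle there are points of the disc -/
theorem exists_in {a : ℝ} {P : ℂ → Prop} (h : ∀ᶠ z in 𝓝 (E a), P z) : ∃ z, ‖z‖ < 1 ∧ P z := by
  have h1 : Tendsto (fun t : ℝ => ((1 - t : ℝ) : ℂ) * E a) (𝓝[>] 0) (𝓝 (E a)) := by
    have h2 : Tendsto (fun t : ℝ => ((1 - t : ℝ) : ℂ) * E a) (𝓝 0) (𝓝 (((1 - 0 : ℝ) : ℂ) * E a)) := by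
      apply Continuous.tendsto
      fun_prop
    simp only [sub_zero, Complex.ofReal_one, one_mul] at h2
    exact h2.mono_left nhdsWithin_le_nhds
  have h3 := h1.eventually h
  have h4 : ∀ᶠ t : ℝ in 𝓝[>] 0, t ∈ Set.Ioo (0 : ℝ) 1 := Ioo_mem_nhdsGT one_pos
  obtain ⟨t, ht, ht0, ht1⟩ := (h3.and h4).exists
  refine ⟨_, ?_, ht⟩
  rw [norm_mul, norm_E, mul_one, Complex.norm_real, Real.norm_eq_abs, abs_of_pos (by linarith)]
  linarith

/-- moving `X` a little towards the origin: if `|X - p| = 1` and `Re (X conj (X - p)) > 0` then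
`|(1 - t) X - p| < 1` for small positive `t` -/
theorem ev_shrink {X p : ℂ} (h1 : ‖X - p‖ ≤ 1) (h2 : 0 < (X * conj (X - p)).re) :
    ∀ᶠ t : ℝ in 𝓝[>] 0, ‖((1 - t : ℝ) : ℂ) * X - p‖ < 1 := by
  have hk : 0 < ‖X‖ ^ 2 + 1 := by positivity
  have h4 : ∀ᶠ t : ℝ in 𝓝[>] 0, t ∈ Set.Ioo (0 : ℝ) ((X * conj (X - p)).re / (‖X‖ ^ 2 + 1)) :=
    Ioo_mem_nhdsGT (div_pos h2 hk)
  filter_upwards [h4] with t ht
  obtain ⟨ht0, ht1⟩ := ht
  rw [lt_div_iff₀ hk] at ht1
  have e1 : ((1 - t : ℝ) : ℂ) * X - p = (X - p) - (t : ℂ) * X := by push_cast; ring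
  have e2 : ‖(X - p) - (t : ℂ) * X‖ ^ 2 = ‖X - p‖ ^ 2 + t ^ 2 * ‖X‖ ^ 2
      - 2 * t * (X * conj (X - p)).re := by
    rw [← Complex.normSq_eq_norm_sq, Complex.normSq_sub, Complex.normSq_mul, Complex.normSq_ofReal,
      Complex.normSq_eq_norm_sq, Complex.normSq_eq_norm_sq]
    have e3 : ((X - p) * conj ((t : ℂ) * X)).re = t * (X * conj (X - p)).re := by
      rw [map_mul, Complex.conj_ofReal]
      simp only [Complex.mul_re, Complex.mul_im, Complex.conj_re, Complex.conj_im,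
        Complex.ofReal_re, Complex.ofReal_im]
      ring
    rw [e3]
    ring
  rw [e1]
  have e4 : ‖(X - p) - (t : ℂ) * X‖ ^ 2 < 1 := by
    rw [e2]
    have h5 : ‖X - p‖ ^ 2 ≤ 1 := by nlinarith [norm_nonneg (X - p)]
    nlinarith [sq_nonneg ‖X‖, mul_pos ht0 (sub_pos.2 ht1), sq_nonneg t]
  nlinarith [norm_nonneg ((X - p) - (t : ℂ) * X)]

/-- `(1 - t) X` is near `X` -/
theorem ev_path {X : ℂ} {P : ℂ → Prop} (h : ∀ᶠ z in 𝓝 X, P z) :
    ∀ᶠ t : ℝ in 𝓝[>] 0, P (((1 - t : ℝ) : ℂ) * X) := by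
  have h1 : Tendsto (fun t : ℝ => ((1 - t : ℝ) : ℂ) * X) (𝓝[>] 0) (𝓝 X) := by
    have h2 : Tendsto (fun t : ℝ => ((1 - t : ℝ) : ℂ) * X) (𝓝 0) (𝓝 (((1 - 0 : ℝ) : ℂ) * X)) := by
      apply Continuous.tendsto
      fun_prop
    simp only [sub_zero, Complex.ofReal_one, one_mul] at h2
    exact h2.mono_left nhdsWithin_le_nhds
  exact h1.eventually h

section S
variable {b c e : ℝ} {L1 L2 L3 : ℂ → Prop}

theorem Lab.not1 (h : Lab b c e L1 L2 L3) (he : 0 < e) (he' : e ≤ Real.pi / 3) {a : ℝ}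
    (ha : Real.cos a < Real.sin (e / 2)) : ∀ᶠ z in 𝓝 (E a), ¬ L1 z := by
  have hs : 0 < Real.sin (e/2) := Real.sin_pos_of_pos_of_lt_pi (by linarith)
    (by have := Real.pi_pos; linarith)
  have h3 : ¬ ‖E a - ((2 * Real.sin (e/2) : ℝ) : ℂ)‖ ≤ 1 := by
    refine norm_gt_one ?_
    simp only [Complex.sub_re, Complex.sub_im, Complex.ofReal_re, Complex.ofReal_im, E_re, E_im]
    nlinarith [Real.sin_sq_add_cos_sq a]
  filter_upwards [ev_gt (f := fun z => z - ((2 * Real.sin (e/2) : ℝ) : ℂ)) (by fun_prop) h3]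
    with z hz h1
  exact hz (h.m1 _ h1)

theorem Lab.not2 (h : Lab b c e L1 L2 L3) (he : 0 < e) (he' : e ≤ Real.pi / 3) {a : ℝ}
    (ha : Real.cos (a - b) < Real.sin (e / 2)) : ∀ᶠ z in 𝓝 (E a), ¬ L2 z := by
  have h1 := h.not1 he he' ha
  have h2 : E (-b) * E a = E (a - b) := by rw [E_mul]; congr 1; ring
  filter_upwards [ev_comp (f := fun z => E (-b) * z) (by fun_prop) h2 h1] with z hz h3
  exact hz (h.r21 _ h3)

theorem Lab.not3 (h : Lab b c e L1 L2 L3) (he : 0 < e) (he' : e ≤ Real.pi / 3) {a : ℝ}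
    (ha : - Real.cos (a - c) < Real.sin (e / 2)) : ∀ᶠ z in 𝓝 (E a), ¬ L3 z := by
  have hs : 0 < Real.sin (e/2) := Real.sin_pos_of_pos_of_lt_pi (by linarith)
    (by have := Real.pi_pos; linarith)
  have h3 : ¬ ‖E a + ((2 * Real.sin (e/2) : ℝ) : ℂ) * E c‖ ≤ 1 := by
    refine norm_gt_one ?_
    simp only [Complex.add_re, Complex.add_im, Complex.mul_re, Complex.mul_im,
      Complex.ofReal_re, Complex.ofReal_im, E_re, E_im]
    rw [Real.cos_sub] at ha
    have h6 : 0 < Real.sin (e/2) * (Real.cos a * Real.cos c + Real.sin a * Real.sin c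
      + Real.sin (e/2)) := mul_pos hs (by linarith)
    have h7 : (Real.cos a + (2 * Real.sin (e / 2) * Real.cos c - 0 * Real.sin c)) ^ 2 +
        (Real.sin a + (2 * Real.sin (e / 2) * Real.sin c + 0 * Real.cos c)) ^ 2
        = (Real.sin a ^ 2 + Real.cos a ^ 2) + 4 * (Real.sin (e/2) * (Real.cos a * Real.cos c
          + Real.sin a * Real.sin c)) + 4 * Real.sin (e/2) ^ 2
            * (Real.sin c ^ 2 + Real.cos c ^ 2) := by ring
    rw [h7, Real.sin_sq_add_cos_sq, Real.sin_sq_add_cos_sq]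
    nlinarith [h6]
  filter_upwards [ev_gt (f := fun z => z + ((2 * Real.sin (e/2) : ℝ) : ℂ) * E c) (by fun_prop) h3]
    with z hz h1
  exact hz (h.m3 _ h1)

/-- exclusive-1 arc. -/
theorem Lab.ex1 (h : Lab b c e L1 L2 L3) (he : 0 < e) (he' : e ≤ Real.pi / 3)
    (_hb : 0 < b) (hb' : b < Real.pi) (hc : 0 < c) (hcb : c ≤ b - e) {a : ℝ}
    (h1 : c - Real.pi / 2 - e / 2 < a) (h2 : a < b - Real.pi / 2 + e / 2) :
    ∀ᶠ z in 𝓝 (E a), ‖z‖ < 1 → L1 z := by
  have hpi := Real.pi_pos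
  have k2 : ∀ᶠ z in 𝓝 (E a), ¬ L2 z := by
    refine h.not2 he he' ?_
    have h4 : Real.cos (a - b) = Real.cos (a - b + 2 * Real.pi) := by
      rw [Real.cos_add_two_pi]
    rw [h4]
    apply cos_lt_sin he he' <;> linarith
  have k3 : ∀ᶠ z in 𝓝 (E a), ¬ L3 z := by
    refine h.not3 he he' ?_
    have h4 : - Real.cos (a - c) = Real.cos (a - c + Real.pi) := by
      rw [Real.cos_add_pi]
    rw [h4]
    apply cos_lt_sin he he' <;> linarith
  filter_upwards [k2, k3] with z z2 z3 hz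
  rcases h.cov z hz with h3 | h3 | h3
  · exact h3
  · exact absurd h3 z2
  · exact absurd h3 z3

/-- exclusive-2 arc. -/
theorem Lab.ex2 (h : Lab b c e L1 L2 L3) (he : 0 < e) (he' : e ≤ Real.pi / 3)
    (_hb : 0 < b) (hb' : b < Real.pi) (hc : 0 < c) (hcb : c ≤ b - e) {a : ℝ}
    (h1 : Real.pi / 2 - e / 2 < a) (h2 : a < c + Real.pi / 2 + e / 2) :
    ∀ᶠ z in 𝓝 (E a), ‖z‖ < 1 → L2 z := by
  have hpi := Real.pi_pos
  have k1 : ∀ᶠ z in 𝓝 (E a), ¬ L1 z := by
    refine h.not1 he he' ?_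
    apply cos_lt_sin he he' <;> linarith
  have k3 : ∀ᶠ z in 𝓝 (E a), ¬ L3 z := by
    refine h.not3 he he' ?_
    have h4 : - Real.cos (a - c) = Real.cos (a - c + Real.pi) := by
      rw [Real.cos_add_pi]
    rw [h4]
    apply cos_lt_sin he he' <;> linarith
  filter_upwards [k1, k3] with z z1 z3 hz
  rcases h.cov z hz with h3 | h3 | h3
  · exact absurd h3 z1
  · exact h3
  · exact absurd h3 z3

/-- exclusive-3 arc. -/
theorem Lab.ex3 (h : Lab b c e L1 L2 L3) (he : 0 < e) (he' : e ≤ Real.pi / 3)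
    (_hb : 0 < b) (hb' : b < Real.pi) {a : ℝ}
    (h1 : b + Real.pi / 2 - e / 2 < a) (h2 : a < 3 * Real.pi / 2 + e / 2) :
    ∀ᶠ z in 𝓝 (E a), ‖z‖ < 1 → L3 z := by
  have hpi := Real.pi_pos
  have k1 : ∀ᶠ z in 𝓝 (E a), ¬ L1 z := by
    refine h.not1 he he' ?_
    apply cos_lt_sin he he' <;> linarith
  have k2 : ∀ᶠ z in 𝓝 (E a), ¬ L2 z := by
    refine h.not2 he he' ?_
    apply cos_lt_sin he he' <;> linarith
  filter_upwards [k1, k2] with z z1 z2 hz
  rcases h.cov z hz with h3 | h3 | h3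
  · exact absurd h3 z1
  · exact absurd h3 z2
  · exact h3

/-- sure-1 arc. -/
theorem Lab.sure1 (h : Lab b c e L1 L2 L3) (he : 0 < e) (he' : e ≤ Real.pi / 3)
    (hb : 0 < b) (hb' : b < Real.pi) (hc : 0 < c) (hcb : c ≤ b - e) {a : ℝ}
    (h1 : Real.pi / 2 - e / 2 - b < a) (h2 : a < c - b + Real.pi / 2 + e / 2) :
    ∀ᶠ z in 𝓝 (E a), ‖z‖ < 1 → L1 z := by
  have h3 : ∀ᶠ z in 𝓝 (E (a + b)), ‖z‖ < 1 → L2 z :=
    h.ex2 he he' hb hb' hc hcb (by linarith) (by linarith)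
  have h4 : E b * E a = E (a + b) := by rw [E_mul]; congr 1; ring
  filter_upwards [ev_comp (f := fun z => E b * z) (by fun_prop) h4 h3] with z hz hz1
  have h5 := h.r21 _ (hz (by rw [norm_E_mul]; exact hz1))
  rw [← mul_assoc, E_mul, neg_add_cancel, E_zero, one_mul] at h5
  exact h5

/-- sure-3 arc (for `2 b ≥ π + e`). -/
theorem Lab.sure3 (h : Lab b c e L1 L2 L3) (he : 0 < e) (he' : e ≤ Real.pi / 3)
    (hb : 0 < b) (hb' : b < Real.pi) (hc : 0 < c) (hcb : c ≤ b - e)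
    (h2b : Real.pi + e ≤ 2 * b) {a : ℝ}
    (h1 : b + Real.pi / 2 - e / 2 < a ∨ 2 * b + c - Real.pi / 2 - e / 2 < a)
    (h2 : a < 3 * Real.pi / 2 + e / 2 ∨ a < 5 * Real.pi / 2 + c - 2 * b + e / 2) :
    ∀ᶠ z in 𝓝 (E a), ‖z‖ < 1 → L3 z := by
  have hpi := Real.pi_pos
  by_cases hA : b + Real.pi / 2 - e / 2 < a
  · by_cases hB : a < 3 * Real.pi / 2 + e / 2
    · exact h.ex3 he he' hb hb' hA hB
    · push Not at hB
      have hB2 : a < 5 * Real.pi / 2 + c - 2 * b + e / 2 := by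
        rcases h2 with h2 | h2
        · exact absurd h2 (not_lt.mpr hB)
        · exact h2
      have h5 : ∀ᶠ z in 𝓝 (E (a + 2 * b - 2 * Real.pi)), ‖z‖ < 1 → L2 z :=
        h.ex2 he he' hb hb' hc hcb (by linarith) (by linarith)
      have e5 : E (2 * b) * E a = E (a + 2 * b - 2 * Real.pi) := by
        rw [E_mul, ← E_two_pi (a + 2 * b - 2 * Real.pi)]; congr 1; ring
      have k2 : ∀ᶠ z in 𝓝 (E a), ¬ L2 z := by
        refine h.not2 he he' ?_
        apply cos_lt_sin he he' <;> linarith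
      filter_upwards [ev_comp (f := fun z => E (2 * b) * z) (by fun_prop) e5 h5, k2]
        with z hz z2 hz1
      rcases h.cov z hz1 with h3 | h3 | h3
      · exfalso
        have h4 := h.r12 _ h3
        have h6 := h.r21 _ (hz (by rw [norm_E_mul]; exact hz1))
        rw [← mul_assoc, E_mul] at h6
        have h7 : -b + 2 * b = b := by ring
        rw [h7] at h6
        exact h.n12 _ h6 h4
      · exact absurd h3 z2
      · exact h3
  · push Not at hA
    have hA2 : 2 * b + c - Real.pi / 2 - e / 2 < a := by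
      rcases h1 with h1 | h1
      · exact absurd h1 (not_lt.mpr hA)
      · exact h1
    have k1 : ∀ᶠ z in 𝓝 (E a), ¬ L1 z := by
      refine h.not1 he he' ?_
      apply cos_lt_sin he he' <;> linarith
    have h5 : ∀ᶠ z in 𝓝 (E (a - 2 * b)), ‖z‖ < 1 → L1 z :=
      h.ex1 he he' hb hb' hc hcb (by linarith) (by linarith)
    have e5 : E (-(2 * b)) * E a = E (a - 2 * b) := by rw [E_mul]; congr 1; ring
    filter_upwards [ev_comp (f := fun z => E (-(2 * b)) * z) (by fun_prop) e5 h5, k1]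
      with z hz z1 hz1
    rcases h.cov z hz1 with h3 | h3 | h3
    · exact absurd h3 z1
    · exfalso
      have h4 := h.r21 _ h3
      have h6 := h.r12 _ (hz (by rw [norm_E_mul]; exact hz1))
      rw [← mul_assoc, E_mul] at h6
      have h7 : b + -(2 * b) = -b := by ring
      rw [h7] at h6
      exact h.n12 _ h4 h6
    · exact h3

/-- `3`-label goes to `¬ 1` under the rotation. -/
theorem Lab.not2_of (h : Lab b c e L1 L2 L3) {x : ℂ} (hx : ¬ L1 x) : ¬ L2 (E b * x) := by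
  intro h1
  have h2 := h.r21 _ h1
  rw [← mul_assoc, E_mul] at h2
  have h3 : -b + b = 0 := by ring
  rw [h3, E_zero, one_mul] at h2
  exact hx h2

theorem Lab.not1_of (h : Lab b c e L1 L2 L3) {x : ℂ} (hx : ¬ L2 x) : ¬ L1 (E (-b) * x) := by
  intro h1
  have h2 := h.r12 _ h1
  rw [← mul_assoc, E_mul] at h2
  have h3 : b + -b = 0 := by ring
  rw [h3, E_zero, one_mul] at h2
  exact hx h2

end S

end Pool.Agent.H89.OD
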