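import Pool.Agent.H89.OD.Cases
import Pool.Agent.H89.OD.L.H908R3_Disc_CaseT

/-!
# Open disc: the cases 0, 1 and T, the assembly
-/

set_option autoImplicit false

namespace Pool.Agent.H89.OD

open Complex ComplexConjugate Filter Topology
open Pool.Agent.H908R3.Disc (E IsIso gP giP gR giR Par eta e2 E_mul E_zero norm_E E_re E_im E_add
  norm_E_mul norm_gt_one cos_lt_sin conj_E E_two_pi E_pi)

theorem case0 : Case0 := by
  intro o b c e L1 L2 L3 hb hb' he he' hbc hcb hC
  have hpi := Real.pi_pos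
  have h := hC.lab
  have hs : 0 < Real.sin (e / 2) := Real.sin_pos_of_pos_of_lt_pi (by linarith) (by linarith)
  have key : ∀ a : ℝ, Real.cos a < Real.sin (e / 2) → Real.cos (a - b) < Real.sin (e / 2) →
      - Real.cos (a - c) < Real.sin (e / 2) → False := by
    intro a h1 h2 h3
    obtain ⟨z, hz, z1, z2, z3⟩ := exists_in
      ((h.not1 he he' h1).and ((h.not2 he he' h2).and (h.not3 he he' h3)))
    rcases h.cov z hz with h4 | h4 | h4
    · exact z1 h4
    · exact z2 h4
    · exact z3 h4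
  -- (i)
  have hce : c ≤ b - e := by
    by_contra hcon
    push Not at hcon
    have hlt : max (b + Real.pi / 2 - e / 2) (c - Real.pi / 2 - e / 2) <
        min (3 * Real.pi / 2 + e / 2) (c + Real.pi / 2 + e / 2) := by
      rw [lt_min_iff, max_lt_iff, max_lt_iff]
      refine ⟨⟨by linarith, by linarith⟩, ⟨by linarith, by linarith⟩⟩
    obtain ⟨a, ha1, ha2⟩ := exists_between hlt
    rw [max_lt_iff] at ha1
    rw [lt_min_iff] at ha2
    refine key a ?_ ?_ ?_
    · apply cos_lt_sin he he' <;> linarith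
    · apply cos_lt_sin he he' <;> linarith
    · have h4 : - Real.cos (a - c) = Real.cos (a - c + Real.pi) := by
        rw [Real.cos_add_pi]
      rw [h4]
      apply cos_lt_sin he he' <;> linarith
  -- (ii)
  have hbe : b ≤ Real.pi - e := by
    by_contra hcon
    push Not at hcon
    refine key (b / 2) ?_ ?_ ?_
    · apply cos_lt_sin he he' <;> linarith
    · have h4 : Real.cos (b / 2 - b) = Real.cos (b / 2) := by
        rw [← Real.cos_neg]
        congr 1
        ring
      rw [h4]
      apply cos_lt_sin he he' <;> linarith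
    · have h4 : 0 ≤ Real.cos (b / 2 - c) :=
        Real.cos_nonneg_of_mem_Icc ⟨by linarith, by linarith⟩
      linarith
  exact ⟨hb, hb', he, he', hbc, hce, hbe⟩

theorem case1 : Case1 := by
  intro o b c e L1 L2 L3 hp hcfg h1 h2
  obtain ⟨b0, bpi, e0, e3, cb, cbe, bpe⟩ := hp
  have h := hcfg.lab
  have hc : 0 < c := by linarith
  have hmm : max (c - Real.pi / 2 - e / 2) (Real.pi / 2 - e / 2 - 2 * b)
      < min (b - Real.pi / 2 + e / 2) (c - 2 * b + Real.pi / 2 + e / 2) := by
    rw [max_lt_iff, lt_min_iff, lt_min_iff]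
    refine ⟨⟨?_, ?_⟩, ?_, ?_⟩ <;> linarith
  obtain ⟨a, ha1, ha2⟩ := exists_between hmm
  rw [max_lt_iff] at ha1
  rw [lt_min_iff] at ha2
  have e5 : E (2 * b) * E a = E (a + 2 * b) := by rw [E_mul]; congr 1; ring
  obtain ⟨z, hz, z1, z2⟩ := exists_in
    ((h.ex1 e0 e3 b0 bpi hc cbe ha1.1 ha2.1).and (ev_comp (f := fun z => E (2 * b) * z)
      (by fun_prop) e5 (h.ex2 e0 e3 b0 bpi hc cbe (a := a + 2 * b) (by linarith [ha1.2])
        (by linarith [ha2.2]))))
  have h5 := h.r12 _ (z1 hz)
  have h6 := h.r21 _ (z2 (by rw [norm_E_mul]; exact hz))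
  rw [← mul_assoc, E_mul] at h6
  have h7 : -b + 2 * b = b := by ring
  rw [h7] at h6
  exact h.n12 _ h6 h5

theorem caseT_aux {b : ℝ} {g gi : ℂ → ℂ} {L1 L2 L3 : ℂ → Prop} {D : ℂ}
    (h : Cfg b g gi L1 L2 L3) (hb : b = 2 * Real.pi / 3) (h0 : gi 0 = D)
    (h1 : gi (E (-b) * D) = 0) : False := by
  have n1 : ¬ L1 0 := by
    intro h2
    have h3 := h.r12 0 h2
    rw [mul_zero] at h3
    exact h.n12 0 h2 h3
  have n2 : ¬ L2 0 := by
    intro h2
    have h3 := h.r21 0 h2
    rw [mul_zero] at h3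
    exact n1 h3
  have hL3 : L3 0 := by
    rcases h.cov 0 (by simp) with h2 | h2 | h2
    · exact absurd h2 n1
    · exact absurd h2 n2
    · exact h2
  have hD : L1 D := by
    have h2 := h.g31 0 hL3
    rwa [h0] at h2
  have hDn := h.in1 D hD
  have hE1 : E b * (E (-b) * D) = D := by
    rw [← mul_assoc, E_mul, add_neg_cancel, E_zero, one_mul]
  have hE2 : E (-b) * (E (-b) * D) = E b * D := by
    rw [← mul_assoc, E_mul]
    congr 1
    rw [← E_two_pi (-b + -b), hb]
    congr 1
    ring
  rcases h.cov (E (-b) * D) (by rw [norm_E_mul]; exact hDn) with h2 | h2 | h2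
  · have h3 := h.r12 _ h2
    rw [hE1] at h3
    exact h.n12 D hD h3
  · have h3 := h.r21 _ h2
    rw [hE2] at h3
    exact h.n12 _ h3 (h.r12 D hD)
  · have h3 := h.g31 _ h2
    rw [h1] at h3
    exact n1 h3

theorem caseT : CaseT := by
  intro o b c e L1 L2 L3 h hb hc
  have hbc : E (b + c) = -1 := by
    have h1 : b + c = Real.pi := by rw [hb, hc]; ring
    rw [h1, E_pi]
  have hbc' : E (-c + -b) = -1 := by
    rw [← E_two_pi]
    have h1 : -c + -b + 2 * Real.pi = Real.pi := by rw [hb, hc]; ring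
    rw [h1, E_pi]
  unfold CfgO at h
  cases o with
  | true =>
    simp only [if_true] at h
    refine caseT_aux (D := ((2 * Real.sin (e/2) : ℝ) : ℂ)) h hb ?_ ?_
    · simp [giP]
    · simp only [giP]
      rw [← mul_assoc, E_mul, hbc']
      ring
  | false =>
    simp only [Bool.false_eq_true, if_false] at h
    refine caseT_aux (D := ((2 * Real.sin (e/2) : ℝ) : ℂ)) h hb ?_ ?_
    · simp [giR]
    · simp only [giR]
      rw [map_mul, conj_E, neg_neg, Complex.conj_ofReal, ← mul_assoc, E_mul, add_comm c b, hbc]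
      ring

theorem core3 (hM : Mirror) (h0 : Case0) (h1 : Case1) (h2 : Case2) (h3 : Case3) (h4 : Case4)
    (h5 : Case5) (h6 : Case6) (h7 : Case7) (h8 : Case8) (h9 : Case9) (hR : CaseR)
    (hR8 : CaseR8) (hR9 : CaseR9) (hT : CaseT) : Core3 := by
  intro o b c e L1 L2 L3 b0 bpi e0 e3 cb cb' H
  have P : Par b c e := h0 o b c e L1 L2 L3 b0 bpi e0 e3 cb cb' H
  have hpi := Real.pi_pos
  have hcbe := P.cbe
  have hbpe := P.bpe
  have heta : 0 ≤ eta b e := by
    unfold Pool.Agent.H908R3.Disc.eta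
    apply Real.arcsin_nonneg.mpr
    have s1 : 0 ≤ Real.sin (e/2) := Real.sin_nonneg_of_nonneg_of_le_pi (by linarith) (by linarith)
    have s2 : 0 ≤ Real.sin (b/2) := Real.sin_nonneg_of_nonneg_of_le_pi (by linarith) (by linarith)
    positivity
  by_cases hb1 : b ≤ (Real.pi - e) / 3
  · refine h2 o b c e L1 L2 L3 P H (Or.inl hb1) ?_
    linarith
  push Not at hb1
  by_cases hb2 : b < (Real.pi + e) / 2
  · exact h1 o b c e L1 L2 L3 P H hb1 hb2
  push Not at hb2
  by_cases hb3 : 5 * b / 2 - eta b e < 3 * Real.pi / 2 + e / 2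
  · exact h2 o b c e L1 L2 L3 P H (Or.inr hb2) hb3
  push Not at hb3
  have hb35 : 3 * Real.pi / 5 < b := by linarith
  rcases lt_trichotomy c (Real.pi - b) with hc | hc | hc
  · exact h4 o b c e L1 L2 L3 P H hb2 hb35 hc
  · by_cases hb4 : b < 2 * Real.pi / 3
    · cases o with
      | true => exact h8 b c e L1 L2 L3 P H hb2 hc hb4 hb3
      | false =>
        have H' := hM false b c e L1 L2 L3 H
        exact hR8 b (b - c) e _ _ _ e0 e3 hbpe H' hb2 (by linarith) hb4
    · push Not at hb4
      refine hT o b c e L1 L2 L3 H ?_ ?_ <;> linarith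
  · rcases lt_trichotomy c (2 * b - Real.pi) with hc2 | hc2 | hc2
    · exact h3 o b c e L1 L2 L3 P H hc hc2
    · cases o with
      | false => exact hR9 b c e L1 L2 L3 P H hc2 (by linarith)
      | true =>
        by_cases hA : 3 * c / 2 + e2 c e + e / 2 ≤ b
        · exact h6 b c e L1 L2 L3 P H hb2 hb35 hc (by linarith) hA
        · push Not at hA
          by_cases hB : 2 * b + c / 2 + e2 c e < 2 * Real.pi + e / 2
          · exact h5 b c e L1 L2 L3 P H hb2 hA hB
          · push Not at hB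
            exact h9 b c e L1 L2 L3 P H hc2 (by linarith) hB
    · cases o with
      | false => exact hR b c e L1 L2 L3 P H hb2 hc hc2
      | true =>
        by_cases hA : 3 * c / 2 + e2 c e + e / 2 ≤ b
        · exact h6 b c e L1 L2 L3 P H hb2 hb35 hc hc2.le hA
        · push Not at hA
          by_cases hB : 2 * b + c / 2 + e2 c e < 2 * Real.pi + e / 2
          · exact h5 b c e L1 L2 L3 P H hb2 hA hB
          · push Not at hB
            exact h7 b c e L1 L2 L3 P H hb2 hc2 hB

end Pool.Agent.H89.OD
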