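import Pool.Agent.H89.OD.Cases
import Pool.Agent.H89.OD.L.H908R3_Disc_TaskA
import Pool.Agent.H89.OD.L.H908R3_Disc_TaskB
import Pool.Agent.H89.OD.L.H908R3_Disc_TaskC

/-!
# Open disc: distinct centres, relabelling, transfer to `EuclideanSpace`
-/

set_option autoImplicit false

namespace Pool.Agent.H89.OD

open Complex ComplexConjugate Filter Topology
open Pool.Agent.H908R3.Disc (E IsIso isIso_of_isometryEquiv)
open Pool.Agent.H908R3.Disc.TaskCAux (inv_iso comp_iso)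

theorem image_closure_iso {F : ℂ → ℂ} {q : ℂ} (hF : IsIso F) (h0 : F q = 0) (A : Set ℂ) :
    F '' closure A = closure (F '' A) := by
  obtain ⟨L, hL⟩ := Pool.Agent.H908R3.Disc.TB.exists_lin hF h0
  have e : F = ((Homeomorph.subRight q).trans L.toHomeomorph) := by
    funext x
    rw [hL x]
    rfl
  rw [e]
  exact Homeomorph.image_closure _ A

/-- the three centres cannot be pairwise distinct -/
theorem taskB (A : Set ℂ) (F G : ℂ → ℂ) (q2 q3 : ℂ) (hF : IsIso F) (hG : IsIso G)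
    (hF0 : F q2 = 0) (hG0 : G q3 = 0) (hcov : A ∪ F '' A ∪ G '' A = Metric.ball (0 : ℂ) 1)
    (h2 : q2 ≠ 0) (h3 : q3 ≠ 0) (h23 : q2 ≠ q3) : False := by
  refine Pool.Agent.H908R3.Disc.taskB (closure A) F G q2 q3 hF hG hF0 hG0 ?_ h2 h3 h23
  rw [image_closure_iso hF hF0, image_closure_iso hG hG0, ← closure_union, ← closure_union, hcov,
    closure_ball _ one_ne_zero]

theorem core_of (h2 : Core2) : Core := by
  intro A F G hF hG hP
  obtain ⟨Fi, hFi, f1, f2⟩ := inv_iso hF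
  obtain ⟨Gi, hGi, g1, g2⟩ := inv_iso hG
  obtain ⟨hcov, d12, d13, d23⟩ := hP
  by_cases c1 : Fi 0 = 0
  · have hF0 : F 0 = 0 := by
      have := f2 0
      rwa [c1] at this
    exact h2 A F G hF hG hF0 ⟨hcov, d12, d13, d23⟩
  by_cases c2 : Gi 0 = 0
  · have hG0 : G 0 = 0 := by
      have := g2 0
      rwa [c2] at this
    refine h2 A G F hG hF hG0 ⟨?_, d13, d12, d23.symm⟩
    rw [← hcov]
    ext x
    simp only [Set.mem_union]
    tauto
  by_cases c3 : Fi 0 = Gi 0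
  · have hR0 : G (Fi 0) = 0 := by rw [c3]; exact g2 0
    have e1 : (fun x => G (Fi x)) '' (F '' A) = G '' A := by
      rw [Set.image_image]
      simp only [f1]
    have e2 : Fi '' (F '' A) = A := by
      rw [Set.image_image]
      simp only [f1, Set.image_id']
    refine h2 (F '' A) (fun x => G (Fi x)) Fi (comp_iso hFi hG) hFi hR0 ?_
    unfold Part
    rw [e1, e2]
    refine ⟨?_, d23, d12.symm, d13.symm⟩
    rw [← hcov]
    ext x
    simp only [Set.mem_union]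
    tauto
  · exact taskB A F G (Fi 0) (Gi 0) hF hG (f2 0) (g2 0) hcov c1 c2 c3

/-- transfer to `EuclideanSpace` -/
theorem transfer (hCore : Core) :
    ¬ (∃ A B C : Set (EuclideanSpace ℝ (Fin 2)),
      A ∪ B ∪ C = Metric.ball (0 : EuclideanSpace ℝ (Fin 2)) 1 ∧
      Disjoint A B ∧ Disjoint A C ∧ Disjoint B C ∧
      (∃ f : EuclideanSpace ℝ (Fin 2) ≃ᵢ EuclideanSpace ℝ (Fin 2), f '' A = B) ∧
      (∃ g : EuclideanSpace ℝ (Fin 2) ≃ᵢ EuclideanSpace ℝ (Fin 2), g '' A = C)) := by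
  rintro ⟨A, B, C, hU, hAB, hAC, hBC, ⟨f, hf⟩, ⟨g, hg⟩⟩
  set φ : ℂ ≃ₗᵢ[ℝ] EuclideanSpace ℝ (Fin 2) := Complex.orthonormalBasisOneI.repr with hφ
  have hinj : Function.Injective φ.symm := φ.symm.injective
  have key : ∀ (f : EuclideanSpace ℝ (Fin 2) ≃ᵢ EuclideanSpace ℝ (Fin 2)),
      ((φ.toIsometryEquiv.trans (f.trans φ.symm.toIsometryEquiv) : ℂ ≃ᵢ ℂ) : ℂ → ℂ) ''
        (φ.symm '' A) = φ.symm '' (f '' A) := by
    intro f
    rw [Set.image_image, Set.image_image]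
    apply Set.image_congr
    intro x _
    simp
  apply hCore (φ.symm '' A) (φ.toIsometryEquiv.trans (f.trans φ.symm.toIsometryEquiv) : ℂ ≃ᵢ ℂ)
    (φ.toIsometryEquiv.trans (g.trans φ.symm.toIsometryEquiv) : ℂ ≃ᵢ ℂ)
    (isIso_of_isometryEquiv _) (isIso_of_isometryEquiv _)
  refine ⟨?_, ?_, ?_, ?_⟩
  · rw [key f, key g, hf, hg, ← Set.image_union, ← Set.image_union, hU]
    have := φ.symm.image_ball (0 : EuclideanSpace ℝ (Fin 2)) 1
    rw [this, map_zero]
  · rw [key f, hf]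
    exact (Set.disjoint_image_iff hinj).2 hAB
  · rw [key g, hg]
    exact (Set.disjoint_image_iff hinj).2 hAC
  · rw [key f, key g, hf, hg]
    exact (Set.disjoint_image_iff hinj).2 hBC

end Pool.Agent.H89.OD
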