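import Pool.Agent.H89.OD.Defs

/-!
# Moving a point along a line into the discs
-/

set_option autoImplicit false

namespace Pool.Agent.H89.OD

open Complex ComplexConjugate Filter Topology

/-- moving `X` a little in the direction `v`: if `|X - p| ≤ 1` and `Re (v conj (X - p)) < 0` then
`|X + t v - p| < 1` for small positive `t` -/
theorem ev_move {X v p : ℂ} (h1 : ‖X - p‖ ≤ 1) (h2 : (v * conj (X - p)).re < 0) :
    ∀ᶠ t : ℝ in 𝓝[>] 0, ‖X + (t : ℂ) * v - p‖ < 1 := by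
  have hk : 0 < ‖v‖ ^ 2 + 1 := by positivity
  have h4 : ∀ᶠ t : ℝ in 𝓝[>] 0, t ∈ Set.Ioo (0 : ℝ) (-(v * conj (X - p)).re / (‖v‖ ^ 2 + 1)) :=
    Ioo_mem_nhdsGT (div_pos (by linarith) hk)
  filter_upwards [h4] with t ht
  obtain ⟨ht0, ht1⟩ := ht
  rw [lt_div_iff₀ hk] at ht1
  have e1 : X + (t : ℂ) * v - p = (X - p) + (t : ℂ) * v := by ring
  have e2 : ‖(X - p) + (t : ℂ) * v‖ ^ 2 = ‖X - p‖ ^ 2 + t ^ 2 * ‖v‖ ^ 2
      + 2 * t * (v * conj (X - p)).re := by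
    rw [← Complex.normSq_eq_norm_sq, Complex.normSq_add, Complex.normSq_mul, Complex.normSq_ofReal,
      Complex.normSq_eq_norm_sq, Complex.normSq_eq_norm_sq]
    have e3 : ((X - p) * conj ((t : ℂ) * v)).re = t * (v * conj (X - p)).re := by
      rw [map_mul, Complex.conj_ofReal]
      simp only [Complex.mul_re, Complex.mul_im, Complex.conj_re, Complex.conj_im,
        Complex.ofReal_re, Complex.ofReal_im]
      ring
    rw [e3]
    ring
  rw [e1]
  have e4 : ‖(X - p) + (t : ℂ) * v‖ ^ 2 < 1 := by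
    rw [e2]
    have h5 : ‖X - p‖ ^ 2 ≤ 1 := by nlinarith [norm_nonneg (X - p)]
    nlinarith [sq_nonneg ‖v‖, mul_pos ht0 (sub_pos.2 ht1), sq_nonneg t]
  nlinarith [norm_nonneg ((X - p) + (t : ℂ) * v)]

/-- `X + t v` is near `X` -/
theorem ev_line {X : ℂ} (v : ℂ) {P : ℂ → Prop} (h : ∀ᶠ z in 𝓝 X, P z) :
    ∀ᶠ t : ℝ in 𝓝[>] 0, P (X + (t : ℂ) * v) := by
  have h1 : Tendsto (fun t : ℝ => X + (t : ℂ) * v) (𝓝[>] 0) (𝓝 X) := by
    have h2 : Tendsto (fun t : ℝ => X + (t : ℂ) * v) (𝓝 0) (𝓝 (X + ((0 : ℝ) : ℂ) * v)) := by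
      apply Continuous.tendsto
      fun_prop
    simp only [Complex.ofReal_zero, zero_mul, add_zero] at h2
    exact h2.mono_left nhdsWithin_le_nhds
  exact h1.eventually h

end Pool.Agent.H89.OD
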