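import Pool.Agent.H89.OD.Cases
import Pool.Agent.H89.OD.Move
import Pool.Agent.H89.OD.L.H908R3_Disc_Case2

/-!
# Open disc: case 2
-/

set_option autoImplicit false

namespace Pool.Agent.H89.OD

open Complex ComplexConjugate Filter Topology
open Pool.Agent.H908R3.Disc (E IsIso gP giP gR giR Par e2 E_mul E_zero norm_E E_re E_im E_add
  norm_E_mul norm_gt_one cos_lt_sin conj_E E_two_pi E_add_pi)

namespace Case2Aux

open Pool.Agent.H908R3.Disc.Case2Aux (X X_sub X_conj X_sub' eta_facts)


theorem continuous_gP (c d : ℝ) : Continuous (gP c d) := by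
  unfold gP; fun_prop

theorem continuous_gR (c d : ℝ) : Continuous (gR c d) := by
  unfold gR
  exact continuous_const.mul (Complex.continuous_conj.sub continuous_const)

/-- from the two `3`-arcs to a contradiction -/
theorem contra {o : Bool} {b c e : ℝ} {L1 L2 L3 : ℂ → Prop} (h : CfgO o b c e L1 L2 L3)
    (hs : Real.sin (Pool.Agent.H908R3.Disc.eta b e) = 2 * Real.sin (e/2) * Real.sin (b/2))
    (hX0 : 0 < Real.cos (Pool.Agent.H908R3.Disc.eta b e))
    (hz : ∀ᶠ z in 𝓝 (E (c + Real.pi + b/2 - Pool.Agent.H908R3.Disc.eta b e)), ‖z‖ < 1 → L3 z)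
    (hw : ∀ᶠ z in 𝓝 (E (c + Real.pi - b/2 + Pool.Agent.H908R3.Disc.eta b e)), ‖z‖ < 1 → L3 z) :
    False := by
  have hL := h.lab
  have n1 : ‖X b e - ((2 * Real.sin (e/2) : ℝ) : ℂ)‖ ≤ 1 := by rw [X_sub hs, norm_E]
  have n2 : ‖E (-b) * X b e - ((2 * Real.sin (e/2) : ℝ) : ℂ)‖ ≤ 1 := by rw [X_sub' hs, norm_E]
  have r1 : (E (b/2) * conj (X b e - ((2 * Real.sin (e/2) : ℝ) : ℂ))).re < 0 := by
    rw [X_sub hs, conj_E, E_mul, E_re]
    have : b / 2 + -(Real.pi + b / 2 - Pool.Agent.H908R3.Disc.eta b e) = Pool.Agent.H908R3.Disc.eta b e - Real.pi := by ring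
    rw [this, Real.cos_sub_pi]
    linarith
  have r2 : (E (-b) * E (b/2) * conj (E (-b) * X b e - ((2 * Real.sin (e/2) : ℝ) : ℂ))).re < 0 := by
    rw [X_sub' hs, conj_E, E_mul, E_mul, E_re]
    have : -b + b / 2 + - -(Real.pi + b / 2 - Pool.Agent.H908R3.Disc.eta b e) = -(Pool.Agent.H908R3.Disc.eta b e) + Real.pi := by ring
    rw [this, Real.cos_add_pi, Real.cos_neg]
    linarith
  have s1 := ev_move n1 r1
  have s2 := ev_move n2 r2
  have key : ∃ Y : ℂ, L1 Y ∧ L1 (E (-b) * Y) := by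
    unfold CfgO at h
    cases o with
    | true =>
      simp only [if_true] at h
      have a1 : gP c (2 * Real.sin (e/2)) (X b e) = E (c + Real.pi + b/2 - Pool.Agent.H908R3.Disc.eta b e) := by
        have e2 : c + Real.pi + b/2 - Pool.Agent.H908R3.Disc.eta b e = c + (Real.pi + b/2 - Pool.Agent.H908R3.Disc.eta b e) := by ring
        rw [e2, E_add, ← X_sub hs]; rfl
      have a2 : gP c (2 * Real.sin (e/2)) (E (-b) * X b e) = E (c + Real.pi - b/2 + Pool.Agent.H908R3.Disc.eta b e) := by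
        have e2 : c + Real.pi - b/2 + Pool.Agent.H908R3.Disc.eta b e =
            (c + (-(Real.pi + b/2 - Pool.Agent.H908R3.Disc.eta b e))) + 2 * Real.pi := by ring
        rw [e2, E_two_pi, E_add, ← X_sub' hs]; rfl
      have c1 := ev_line (E (b/2)) (ev_comp (continuous_gP c _).continuousAt a1 hz)
      have c2 := ev_line (E (b/2)) (ev_comp (f := fun z => gP c (2 * Real.sin (e/2)) (E (-b) * z))
        ((continuous_gP c _).comp (by fun_prop)).continuousAt a2 hw)
      obtain ⟨t, ⟨t1, t2⟩, t3, t4⟩ := ((c1.and c2).and (s1.and s2)).exists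
      refine ⟨(X b e + (t : ℂ) * E (b/2)), ?_, ?_⟩
      · have h1 := h.g31 _ (t1 (by unfold gP; rw [norm_E_mul]; exact t3))
        have e1 : ∀ Z : ℂ, giP c (2 * Real.sin (e/2)) (gP c (2 * Real.sin (e/2)) Z) = Z := by
          intro Z
          have hcc : E (-c) * E c = 1 := by rw [E_mul]; simp [E_zero]
          simp only [giP, gP]
          linear_combination (Z - ((2 * Real.sin (e/2) : ℝ) : ℂ)) * hcc
        rwa [e1] at h1
      · have t4' : ‖E (-b) * ((X b e + (t : ℂ) * E (b/2))) - ((2 * Real.sin (e/2) : ℝ) : ℂ)‖ < 1 := by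
          have : E (-b) * ((X b e + (t : ℂ) * E (b/2))) =
              E (-b) * X b e + (t : ℂ) * (E (-b) * E (b/2)) := by
            ring
          rw [this]; exact t4
        have h1 := h.g31 _ (t2 (by unfold gP; rw [norm_E_mul]; exact t4'))
        have e1 : ∀ Z : ℂ, giP c (2 * Real.sin (e/2)) (gP c (2 * Real.sin (e/2)) Z) = Z := by
          intro Z
          have hcc : E (-c) * E c = 1 := by rw [E_mul]; simp [E_zero]
          simp only [giP, gP]
          linear_combination (Z - ((2 * Real.sin (e/2) : ℝ) : ℂ)) * hcc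
        rwa [e1] at h1
    | false =>
      simp only [Bool.false_eq_true, if_false] at h
      have a1 : gR c (2 * Real.sin (e/2)) (E (-b) * X b e) = E (c + Real.pi + b/2 - Pool.Agent.H908R3.Disc.eta b e) := by
        have e2 : c + Real.pi + b/2 - Pool.Agent.H908R3.Disc.eta b e = c + (Real.pi + b/2 - Pool.Agent.H908R3.Disc.eta b e) := by ring
        rw [e2, E_add, ← X_sub hs]
        unfold gR
        rw [← X_conj, Complex.conj_conj]
      have a2 : gR c (2 * Real.sin (e/2)) (X b e) = E (c + Real.pi - b/2 + Pool.Agent.H908R3.Disc.eta b e) := by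
        have e2 : c + Real.pi - b/2 + Pool.Agent.H908R3.Disc.eta b e =
            (c + (-(Real.pi + b/2 - Pool.Agent.H908R3.Disc.eta b e))) + 2 * Real.pi := by ring
        rw [e2, E_two_pi, E_add, ← X_sub' hs]
        unfold gR
        rw [← X_conj]
      have c1 := ev_line (E (b/2)) (ev_comp (f := fun z => gR c (2 * Real.sin (e/2)) (E (-b) * z))
        ((continuous_gR c _).comp (by fun_prop)).continuousAt a1 hz)
      have c2 := ev_line (E (b/2)) (ev_comp (continuous_gR c _).continuousAt a2 hw)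
      obtain ⟨t, ⟨t1, t2⟩, t3, t4⟩ := ((c1.and c2).and (s1.and s2)).exists
      have nn : ∀ Z : ℂ, ‖gR c (2 * Real.sin (e/2)) Z‖ = ‖Z - ((2 * Real.sin (e/2) : ℝ) : ℂ)‖ := by
        intro Z
        simp only [gR]
        rw [norm_E_mul, ← Complex.norm_conj, map_sub, Complex.conj_conj, Complex.conj_ofReal]
      have e1 : ∀ Z : ℂ, giR c (2 * Real.sin (e/2)) (gR c (2 * Real.sin (e/2)) Z) = Z := by
        intro Z
        have hcc : E c * E (-c) = 1 := by rw [E_mul]; simp [E_zero]
        simp only [giR, gR, map_mul, map_sub, conj_E, Complex.conj_conj, Complex.conj_ofReal]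
        linear_combination (Z - ((2 * Real.sin (e/2) : ℝ) : ℂ)) * hcc
      refine ⟨(X b e + (t : ℂ) * E (b/2)), ?_, ?_⟩
      · have h1 := h.g31 _ (t2 (by rw [nn]; exact t3))
        rwa [e1] at h1
      · have t4' : ‖E (-b) * ((X b e + (t : ℂ) * E (b/2))) - ((2 * Real.sin (e/2) : ℝ) : ℂ)‖ < 1 := by
          have : E (-b) * ((X b e + (t : ℂ) * E (b/2))) =
              E (-b) * X b e + (t : ℂ) * (E (-b) * E (b/2)) := by
            ring
          rw [this]; exact t4
        have h1 := h.g31 _ (t1 (by rw [nn]; exact t4'))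
        rwa [e1] at h1
  obtain ⟨Y, k1, k2⟩ := key
  have h2 := hL.r12 _ k2
  have h3 : E b * (E (-b) * Y) = Y := by
    have h4 : E b * E (-b) = 1 := by rw [E_mul]; simp [E_zero]
    linear_combination Y * h4
  rw [h3] at h2
  exact hL.n12 _ k1 h2

end Case2Aux

open Case2Aux Pool.Agent.H908R3.Disc.Case2Aux in
theorem pcase2 : Case2 := by
  intro o b c e L1 L2 L3 hP h hb hmain
  obtain ⟨b0, bpi, e0, e3, cb, cbe, bpe⟩ := hP
  have hpi := Real.pi_pos
  obtain ⟨he0, hee, hs, hc1, hc2⟩ := eta_facts b0 e0 e3 bpe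
  have hL := h.lab
  have hc0 : 0 < c := by linarith
  have hcPool.Agent.H908R3.Disc.eta : 0 < Real.cos (Pool.Agent.H908R3.Disc.eta b e) :=
    Real.cos_pos_of_mem_Ioo ⟨by linarith, by linarith⟩
  rcases hb with hb | hb
  · refine contra h hs hcPool.Agent.H908R3.Disc.eta ?_ ?_
    · exact hL.ex3 e0 e3 b0 bpi (by linarith) (by linarith)
    · exact hL.ex3 e0 e3 b0 bpi (by linarith) (by linarith)
  · refine contra h hs hcPool.Agent.H908R3.Disc.eta ?_ ?_
    · exact hL.sure3 e0 e3 b0 bpi hc0 cbe (by linarith) (Or.inl (by linarith)) (Or.inr (by linarith))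
    · exact hL.sure3 e0 e3 b0 bpi hc0 cbe (by linarith) (Or.inr (by linarith)) (Or.inl (by linarith))

end Pool.Agent.H89.OD
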