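import Pool.Agent.H89.OD.PCaseR8
import Pool.Agent.H89.OD.L.H908R3_Disc_Case3

/-!
# Open disc: case 3 (helper56)
-/

set_option autoImplicit false

namespace Pool.Agent.H89.OD

open Complex ComplexConjugate Filter Topology
open Pool.Agent.H908R3.Disc (E IsIso gP giP gR giR Par eta e2 E_mul E_zero norm_E E_re E_im E_add
  norm_E_mul norm_gt_one cos_lt_sin conj_E E_two_pi E_pi E_add_pi)
open Pool.Agent.H908R3.Disc.C3 (d_pos G1 G2)

theorem gP_cont (c d : ℝ) : Continuous (gP c d) := by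
  unfold gP
  fun_prop

section S
variable {b c e : ℝ} {L1 L2 L3 : ℂ → Prop}

/-- the points near `s₊ = E c (E (b/2) - d)` are not in `L3`. -/
theorem lemmaA_ev (h : Lab b c e L1 L2 L3) (he : 0 < e) (he' : e ≤ Real.pi / 3) (hb : 0 < b)
    (hb' : b < Real.pi) (h1 : Real.cos (b - c / 2) < 0)
    (h2 : 0 < Real.cos ((b - c) / 2)) :
    ∀ᶠ s in 𝓝 (E c * (E (b / 2) - ((2 * Real.sin (e/2) : ℝ) : ℂ))), ¬ L3 s := by
  have hd := d_pos he he'
  have hm2 := h.m2
  have hm3 := h.m3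
  obtain ⟨d, hdd⟩ : ∃ d, d = 2 * Real.sin (e / 2) := ⟨_, rfl⟩
  rw [← hdd] at hd hm2 hm3 ⊢
  have e1 : E (-b) * E c = E (c - b) := by rw [E_mul]; congr 1; ring
  have k3 : ∀ᶠ s in 𝓝 (E c * (E (b / 2) - (d : ℂ))), ¬ ‖E (-b) * s + (d : ℂ) * E c‖ < 1 := by
    apply ev_gt (f := fun s => E (-b) * s + (d : ℂ) * E c) (by fun_prop)
    have e2 : E (c - b) * E (2 * (b / 2)) = E c := by rw [E_mul]; congr 1; ring
    have e3 : E (-b) * (E c * (E (b / 2) - (d : ℂ))) + (d : ℂ) * E c =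
        E (c - b) * (E (b / 2) - ((d : ℂ) - (d : ℂ) * E (2 * (b / 2)))) := by
      linear_combination (E (b / 2) - (d : ℂ)) * e1 - (d : ℂ) * e2
    rw [e3, norm_E_mul]
    exact G2 hd (Real.sin_pos_of_pos_of_lt_pi (by linarith) (by linarith)).ne'
  have k2 : ∀ᶠ s in 𝓝 (E c * (E (b / 2) - (d : ℂ))), ¬ ‖E (-b) * s - (d : ℂ) * E b‖ < 1 := by
    apply ev_gt (f := fun s => E (-b) * s - (d : ℂ) * E b) (by fun_prop)
    have e2 : E (c - b) * E (2 * (b - c / 2)) = E b := by rw [E_mul]; congr 1; ring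
    have e3 : E (-b) * (E c * (E (b / 2) - (d : ℂ))) - (d : ℂ) * E b =
        E (c - b) * (E (b / 2) - ((d : ℂ) + (d : ℂ) * E (2 * (b - c / 2)))) := by
      linear_combination (E (b / 2) - (d : ℂ)) * e1 + (d : ℂ) * e2
    rw [e3, norm_E_mul]
    refine G1 hd h1 ?_
    have : b - c / 2 - b / 2 = (b - c) / 2 := by ring
    rw [this]
    exact h2
  filter_upwards [k2, k3] with s s2 s3 hs
  have hn : ‖E (-b) * s‖ < 1 := by
    rw [norm_E_mul]
    exact h.in3 _ hs
  rcases h.cov _ hn with k | k | k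
  · have h2 := h.r12 _ k
    have e2 : E b * E (-b) = 1 := by rw [E_mul]; simp [E_zero]
    rw [← mul_assoc, e2, one_mul] at h2
    exact h.n23 _ h2 hs
  · exact s2 (hm2 _ k)
  · exact s3 (hm3 _ k)

/-- the points near `s₋ = E c (E (-b/2) - d)` are not in `L3`. -/
theorem lemmaB_ev (h : Lab b c e L1 L2 L3) (he : 0 < e) (he' : e ≤ Real.pi / 3) (hb : 0 < b)
    (hb' : b < Real.pi) (_hc : 0 < c) (hc' : c < Real.pi) (hbc : Real.pi < b + c) :
    ∀ᶠ s in 𝓝 (E c * (E (-(b / 2)) - ((2 * Real.sin (e/2) : ℝ) : ℂ))), ¬ L3 s := by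
  have hd := d_pos he he'
  have hm1 := h.m1
  have hm3 := h.m3
  obtain ⟨d, hdd⟩ : ∃ d, d = 2 * Real.sin (e / 2) := ⟨_, rfl⟩
  rw [← hdd] at hd hm1 hm3 ⊢
  have e1 : E b * E c = E (b + c) := E_mul b c
  have k1 : ∀ᶠ s in 𝓝 (E c * (E (-(b / 2)) - (d : ℂ))), ¬ ‖E b * s - (d : ℂ)‖ < 1 := by
    apply ev_gt (f := fun s => E b * s - (d : ℂ)) (by fun_prop)
    have e2 : E (b + c) * E (2 * (-((b + c) / 2))) = 1 := by
      rw [E_mul, ← E_zero]; congr 1; ring
    have e3 : E b * (E c * (E (-(b / 2)) - (d : ℂ))) - (d : ℂ) =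
        E (b + c) * (E (-(b / 2)) - ((d : ℂ) + (d : ℂ) * E (2 * (-((b + c) / 2))))) := by
      linear_combination (E (-(b / 2)) - (d : ℂ)) * e1 + (d : ℂ) * e2
    rw [e3, norm_E_mul]
    refine G1 hd ?_ ?_
    · rw [Real.cos_neg]
      apply Real.cos_neg_of_pi_div_two_lt_of_lt <;> linarith
    · have : -((b + c) / 2) - -(b / 2) = -(c / 2) := by ring
      rw [this, Real.cos_neg]
      apply Real.cos_pos_of_mem_Ioo
      constructor <;> linarith
  have k3 : ∀ᶠ s in 𝓝 (E c * (E (-(b / 2)) - (d : ℂ))), ¬ ‖E b * s + (d : ℂ) * E c‖ < 1 := by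
    apply ev_gt (f := fun s => E b * s + (d : ℂ) * E c) (by fun_prop)
    have e2 : E (b + c) * E (2 * (-(b / 2))) = E c := by rw [E_mul]; congr 1; ring
    have e3 : E b * (E c * (E (-(b / 2)) - (d : ℂ))) + (d : ℂ) * E c =
        E (b + c) * (E (-(b / 2)) - ((d : ℂ) - (d : ℂ) * E (2 * (-(b / 2))))) := by
      linear_combination (E (-(b / 2)) - (d : ℂ)) * e1 - (d : ℂ) * e2
    rw [e3, norm_E_mul]
    refine G2 hd ?_
    rw [Real.sin_neg]
    have := Real.sin_pos_of_pos_of_lt_pi (x := b / 2) (by linarith) (by linarith)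
    linarith
  filter_upwards [k1, k3] with s s1 s3 hs
  have hn : ‖E b * s‖ < 1 := by
    rw [norm_E_mul]
    exact h.in3 _ hs
  rcases h.cov _ hn with k | k | k
  · exact s1 (hm1 _ k)
  · refine h.not2_of ?_ k
    intro k1
    exact h.n13 _ k1 hs
  · exact s3 (hm3 _ k)

end S

theorem pcase3 : Case3 := by
  intro o b c e L1 L2 L3 hP h hc1 hc2
  obtain ⟨b0, bpi, e0, e3, cb, cbe, bpe⟩ := hP
  have hpi := Real.pi_pos
  have hL := h.lab
  have hc : 0 < c := by linarith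
  have hx : ∀ᶠ z in 𝓝 (E (b / 2)), ¬ L3 z := by
    apply hL.not3 e0 e3
    have h1 : 0 < Real.cos (b / 2 - c) := by
      apply Real.cos_pos_of_mem_Ioo
      constructor <;> linarith
    have h2 := d_pos e0 e3
    linarith
  have hA := lemmaA_ev hL e0 e3 b0 bpi (by
      apply Real.cos_neg_of_pi_div_two_lt_of_lt <;> linarith) (by
      apply Real.cos_pos_of_mem_Ioo
      constructor <;> linarith)
  have hB := lemmaB_ev hL e0 e3 b0 bpi hc (by linarith) (by linarith)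
  have e4 : E (-b) * E (b / 2) = E (-(b / 2)) := by rw [E_mul]; congr 1; ring
  have key : ∀ g gi : ℂ → ℂ, Cfg b g gi L1 L2 L3 → (∀ᶠ z in 𝓝 (E (b / 2)), ¬ L3 (g z)) →
      (∀ᶠ z in 𝓝 (E (b / 2)), ¬ L3 (g (E (-b) * z))) → False := by
    intro g gi H k1 k2
    obtain ⟨z, hz, z1, z2, z3⟩ := exists_in (hx.and (k1.and k2))
    rcases H.cov z hz with k | k | k
    · exact z2 (H.g13 _ k)
    · exact z3 (H.g13 _ (H.r21 _ k))
    · exact z1 k
  obtain ⟨d, hdd⟩ : ∃ d, d = 2 * Real.sin (e / 2) := ⟨_, rfl⟩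
  rw [← hdd] at hA hB
  cases o with
  | true =>
    have h' : Cfg b (gP c (2 * Real.sin (e/2))) (giP c (2 * Real.sin (e/2))) L1 L2 L3 := by
      simpa [CfgO] using h
    rw [← hdd] at h'
    refine key _ _ h' ?_ ?_
    · exact ev_comp (f := fun z => gP c d z) (gP_cont c d).continuousAt rfl hA
    · have hg := gP_cont c d
      exact ev_comp (f := fun z => gP c d (E (-b) * z)) (by fun_prop) (by
        show gP c d (E (-b) * E (b / 2)) = _
        rw [e4]
        rfl) hB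
  | false =>
    have h' : Cfg b (gR c (2 * Real.sin (e/2))) (giR c (2 * Real.sin (e/2))) L1 L2 L3 := by
      simpa [CfgO] using h
    rw [← hdd] at h'
    refine key _ _ h' ?_ ?_
    · exact ev_comp (f := fun z => gR c d z) (gR_cont c d).continuousAt (by
        show gR c d (E (b / 2)) = _
        unfold gR
        rw [conj_E]) hB
    · have hg := gR_cont c d
      exact ev_comp (f := fun z => gR c d (E (-b) * z)) (by fun_prop) (by
        show gR c d (E (-b) * E (b / 2)) = _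
        rw [e4]
        unfold gR
        rw [conj_E, neg_neg]) hA

end Pool.Agent.H89.OD
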