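import Pool.Agent.H89.OD.Cases
import Pool.Agent.H89.OD.L.H908R3_Disc_Case4

/-!
# Open disc: case 4 (helper33)
-/

set_option autoImplicit false

namespace Pool.Agent.H89.OD

open Complex ComplexConjugate Filter Topology
open Pool.Agent.H908R3.Disc (E IsIso gP giP gR giR Par eta e2 E_mul E_zero norm_E E_re E_im E_add
  norm_E_mul norm_gt_one cos_lt_sin conj_E E_two_pi E_pi case4_rhoE)

/-- points `z` near `Z`, where `g Z` is a point of the circle in the interior of a sure-3 arc, have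
the label 1 as soon as `g z` lies in the disc -/
theorem pull {o : Bool} {b c e : ℝ} {L1 L2 L3 : ℂ → Prop} (h : CfgO o b c e L1 L2 L3) {Z : ℂ}
    {a : ℝ} (hZ : Z - ((2 * Real.sin (e/2) : ℝ) : ℂ) = E a)
    (h3 : ∀ᶠ w in 𝓝 (E (if o = true then c + a else c - a)), ‖w‖ < 1 → L3 w) :
    ∀ᶠ z in 𝓝 Z, ‖z - ((2 * Real.sin (e/2) : ℝ) : ℂ)‖ < 1 → L1 z := by
  unfold CfgO at h
  obtain ⟨d, hd⟩ : ∃ d : ℝ, d = 2 * Real.sin (e/2) := ⟨_, rfl⟩
  rw [← hd] at h hZ ⊢
  have hEE : E c * E (-c) = 1 := by rw [E_mul]; simp [E_zero]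
  cases o with
  | true =>
    simp only [if_true] at h h3
    have hq : gP c d Z = E (c + a) := by simp only [gP]; rw [hZ, E_mul]
    filter_upwards [ev_comp (f := gP c d) (by unfold gP; fun_prop) hq h3] with z hz hz1
    have h4 := h.g31 _ (hz (by simp only [gP]; rw [norm_E_mul]; exact hz1))
    have h5 : giP c d (gP c d z) = z := by
      simp only [gP, giP]
      linear_combination (z - d) * hEE
    rwa [h5] at h4
  | false =>
    simp only [Bool.false_eq_true, if_false] at h h3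
    have hconj : ∀ z : ℂ, conj z - (d : ℂ) = conj (z - (d : ℂ)) := fun z => by
      rw [map_sub, Complex.conj_ofReal]
    have hq : gR c d Z = E (c - a) := by
      simp only [gR]; rw [hconj, hZ, conj_E, E_mul]; congr 1
    filter_upwards [ev_comp (f := gR c d) (by unfold gR; fun_prop) hq h3] with z hz hz1
    have h4 := h.g31 _ (hz (by
      simp only [gR]; rw [norm_E_mul, hconj, Complex.norm_conj]; exact hz1))
    have h5 : giR c d (gR c d z) = z := by
      simp only [gR, giR, map_mul, map_sub, Complex.conj_conj, conj_E, Complex.conj_ofReal]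
      linear_combination (z - d) * hEE
    rwa [h5] at h4

theorem pcase4 : Case4 := by
  intro o b c e L1 L2 L3 hp h h2b hb35 hcb4
  have hpi := Real.pi_pos
  obtain ⟨hb0, hbpi, he0, he3, hbc, hcbe, hbpe⟩ := hp
  have H := h.lab
  have hb23 : b < 2 * Real.pi / 3 := by linarith
  have hc0 : 0 < c := by linarith
  have hs0 : 0 < Real.sin (e/2) := Real.sin_pos_of_pos_of_lt_pi (by linarith) (by linarith)
  have hs1 : Real.sin (e/2) < 1 / 2 := by
    rw [← Real.sin_pi_div_six]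
    apply Real.sin_lt_sin_of_lt_of_le_pi_div_two <;> linarith
  obtain ⟨d, hd⟩ : ∃ d : ℝ, d = 2 * Real.sin (e/2) := ⟨_, rfl⟩
  have hd0 : 0 < d := by linarith
  have hd1 : d < 1 := by linarith
  obtain ⟨t, ht⟩ : ∃ t : ℝ, t = 3 * b / 2 := ⟨_, rfl⟩
  have hst0 : 0 < Real.sin t := Real.sin_pos_of_pos_of_lt_pi (by linarith) (by linarith)
  have hst1 : Real.sin t < 1 / 2 := by
    rw [← Real.sin_pi_div_six, ← Real.sin_pi_sub t]
    apply Real.sin_lt_sin_of_lt_of_le_pi_div_two <;> linarith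
  have hds : d * Real.sin t < 1 / 2 := by nlinarith
  have hds0 : 0 < d * Real.sin t := mul_pos hd0 hst0
  obtain ⟨η, hη⟩ : ∃ η : ℝ, η = Real.arcsin (d * Real.sin t) := ⟨_, rfl⟩
  have hsη : Real.sin η = d * Real.sin t := by
    rw [hη]; exact Real.sin_arcsin (by linarith) (by linarith)
  have hη0 : 0 ≤ η := by rw [hη]; exact Real.arcsin_nonneg.2 hds0.le
  have hη2 : η ≤ Real.pi / 2 := by rw [hη]; exact Real.arcsin_le_pi_div_two _
  have hη1 : η < Real.pi / 6 := by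
    by_contra hcon
    push Not at hcon
    have h1 : Real.sin (Real.pi / 6) ≤ Real.sin η :=
      Real.sin_le_sin_of_le_of_le_pi_div_two (by linarith) hη2 hcon
    rw [Real.sin_pi_div_six, hsη] at h1
    linarith
  obtain ⟨ρ, hρ⟩ : ∃ ρ : ℝ, ρ = Real.cos η + d * Real.cos t := ⟨_, rfl⟩
  -- positivity of rho
  have hcη : 0 < Real.cos η := Real.cos_pos_of_mem_Ioo ⟨by linarith, by linarith⟩
  have hρ0 : 0 < ρ := by
    have h1 := Real.sin_sq_add_cos_sq η
    have h2 := Real.sin_sq_add_cos_sq t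
    rw [hsη] at h1
    by_contra hcon
    push Not at hcon
    rw [hρ] at hcon
    have h3 : Real.cos η ≤ - (d * Real.cos t) := by linarith
    have h4 : Real.cos η ^ 2 ≤ (d * Real.cos t) ^ 2 := by nlinarith
    have h5 : (d * Real.sin t) ^ 2 + (d * Real.cos t) ^ 2 = d ^ 2 := by
      linear_combination d ^ 2 * h2
    have h6 : d ^ 2 < 1 := by nlinarith
    linarith
  have hnorm : ρ ^ 2 + d ^ 2 - 2 * ρ * d * Real.cos t = 1 := by
    have h1 := Real.sin_sq_add_cos_sq η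
    have h2 := Real.sin_sq_add_cos_sq t
    rw [hsη] at h1
    rw [hρ]
    linear_combination h1 - d ^ 2 * h2
  have e1 : (d : ℂ) + E (t + η) = (ρ : ℂ) * E t := by
    rw [case4_rhoE hsη, hρ]
  have e2 : (d : ℂ) + E (-t + -η) = (ρ : ℂ) * E (-t) := by
    have h1 : Real.sin (-η) = d * Real.sin (-t) := by
      rw [Real.sin_neg, Real.sin_neg, hsη]; ring
    rw [case4_rhoE h1, hρ, Real.cos_neg, Real.cos_neg]
  have sure : ∀ a : ℝ, a = t + η ∨ a = -t + -η →
      ∀ᶠ w in 𝓝 (E (c + a)), ‖w‖ < 1 → L3 w := by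
    rintro a (rfl | rfl)
    · exact H.sure3 he0 he3 hb0 hbpi hc0 hcbe (by linarith)
        (Or.inr (by linarith)) (Or.inl (by linarith))
    · rw [← E_two_pi]
      exact H.sure3 he0 he3 hb0 hbpi hc0 hcbe (by linarith)
        (Or.inr (by linarith)) (Or.inl (by linarith))
  have e1' : (ρ : ℂ) * E t - (d : ℂ) = E (t + η) := by rw [← e1]; ring
  have e2' : (ρ : ℂ) * E (-t) - (d : ℂ) = E (-t + -η) := by rw [← e2]; ring
  have k1 : ∀ᶠ z in 𝓝 ((ρ : ℂ) * E t), ‖z - (d : ℂ)‖ < 1 → L1 z := by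
    rw [hd] at e1' ⊢
    refine pull h e1' ?_
    cases o with
    | true => exact sure _ (Or.inl rfl)
    | false =>
      have := sure _ (Or.inr rfl)
      have h1 : c - (t + η) = c + (-t + -η) := by ring
      simpa only [Bool.false_eq_true, if_false, h1] using this
  have k2 : ∀ᶠ z in 𝓝 ((ρ : ℂ) * E (-t)), ‖z - (d : ℂ)‖ < 1 → L1 z := by
    rw [hd] at e2' ⊢
    refine pull h e2' ?_
    cases o with
    | true => exact sure _ (Or.inr rfl)
    | false =>
      have := sure _ (Or.inl rfl)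
      have h1 : c - (-t + -η) = c + (t + η) := by ring
      simpa only [Bool.false_eq_true, if_false, h1] using this
  have hre : ρ * (ρ - d * Real.cos t) = ρ * Real.cos η := by rw [hρ]; ring
  have m1 : ∀ᶠ s : ℝ in 𝓝[>] 0, ‖((1 - s : ℝ) : ℂ) * ((ρ : ℂ) * E t) - (d : ℂ)‖ < 1 := by
    refine ev_shrink (by rw [e1', norm_E]) ?_
    rw [e1', conj_E, mul_assoc, E_mul]
    have h1 : t + -(t + η) = -η := by ring
    rw [h1, Complex.re_ofReal_mul, E_re, Real.cos_neg]
    positivity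
  have m2 : ∀ᶠ s : ℝ in 𝓝[>] 0, ‖((1 - s : ℝ) : ℂ) * ((ρ : ℂ) * E (-t)) - (d : ℂ)‖ < 1 := by
    refine ev_shrink (by rw [e2', norm_E]) ?_
    rw [e2', conj_E, mul_assoc, E_mul]
    have h1 : -t + -(-t + -η) = η := by ring
    rw [h1, Complex.re_ofReal_mul, E_re]
    positivity
  have hcos : - Real.cos t < Real.cos (c - b / 2) := by
    rw [← Real.cos_pi_sub]
    apply Real.cos_lt_cos_of_nonneg_of_le_pi <;> linarith
  have hgt : ¬ ‖(ρ : ℂ) * E (b / 2) + (d : ℂ) * E c‖ ≤ 1 := by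
    refine norm_gt_one ?_
    simp only [Complex.add_re, Complex.add_im, Complex.mul_re, Complex.mul_im,
      Complex.ofReal_re, Complex.ofReal_im, E_re, E_im]
    have h2 := Real.sin_sq_add_cos_sq (b / 2)
    have h3 := Real.sin_sq_add_cos_sq c
    rw [Real.cos_sub] at hcos
    have h4 : 0 < ρ * d * (Real.cos c * Real.cos (b / 2) + Real.sin c * Real.sin (b / 2)
        + Real.cos t) := mul_pos (mul_pos hρ0 hd0) (by linarith)
    have h5 : (ρ * Real.cos (b / 2) - 0 * Real.sin (b / 2) + (d * Real.cos c - 0 * Real.sin c)) ^ 2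
        + (ρ * Real.sin (b / 2) + 0 * Real.cos (b / 2) + (d * Real.sin c + 0 * Real.cos c)) ^ 2
        = ρ ^ 2 * (Real.sin (b / 2) ^ 2 + Real.cos (b / 2) ^ 2)
          + d ^ 2 * (Real.sin c ^ 2 + Real.cos c ^ 2)
          + 2 * ρ * d * (Real.cos c * Real.cos (b / 2) + Real.sin c * Real.sin (b / 2)) := by ring
    rw [h5, h2, h3]
    nlinarith
  have k3 : ∀ᶠ z in 𝓝 ((ρ : ℂ) * E (b / 2)), ¬ ‖z + (d : ℂ) * E c‖ < 1 :=
    ev_gt (f := fun z => z + (d : ℂ) * E c) (by fun_prop) hgt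
  obtain ⟨s, hm1, hm2, hk1, hk2, hk3⟩ :=
    (m1.and (m2.and ((ev_path k1).and ((ev_path k2).and (ev_path k3))))).exists
  have hP1 := hk1 hm1
  have hP2 := hk2 hm2
  have a1 : ¬ L1 (E b * (((1 - s : ℝ) : ℂ) * ((ρ : ℂ) * E (-t)))) :=
    fun hh => H.n12 _ hh (H.r12 _ hP2)
  have a2 := H.not2_of a1
  have hy : E b * (E b * (((1 - s : ℝ) : ℂ) * ((ρ : ℂ) * E (-t)))) =
      ((1 - s : ℝ) : ℂ) * ((ρ : ℂ) * E (b / 2)) := by
    have h1 : E b * (E b * (((1 - s : ℝ) : ℂ) * ((ρ : ℂ) * E (-t)))) =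
        ((1 - s : ℝ) : ℂ) * ((ρ : ℂ) * (E b * (E b * E (-t)))) := by ring
    rw [h1, E_mul, E_mul]
    congr 3
    rw [ht]; ring
  have hn : ‖((1 - s : ℝ) : ℂ) * ((ρ : ℂ) * E (b / 2))‖ < 1 := by
    rw [← hy, norm_E_mul, norm_E_mul]
    exact H.in1 _ hP2
  rw [hy] at a2
  have a3 : ¬ L1 (((1 - s : ℝ) : ℂ) * ((ρ : ℂ) * E (b / 2))) := by
    intro hh
    have h1 := H.r12 _ hh
    have h2 : E b * (((1 - s : ℝ) : ℂ) * ((ρ : ℂ) * E (b / 2))) =
        ((1 - s : ℝ) : ℂ) * ((ρ : ℂ) * E t) := by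
      have h3 : E b * (((1 - s : ℝ) : ℂ) * ((ρ : ℂ) * E (b / 2))) =
          ((1 - s : ℝ) : ℂ) * ((ρ : ℂ) * (E b * E (b / 2))) := by ring
      rw [h3, E_mul]
      congr 3
      rw [ht]; ring
    rw [h2] at h1
    exact H.n12 _ hP1 h1
  have a4 : ¬ L3 (((1 - s : ℝ) : ℂ) * ((ρ : ℂ) * E (b / 2))) := by
    intro hh
    have h1 := H.m3 _ hh
    rw [← hd] at h1
    exact hk3 h1
  rcases H.cov _ hn with h1 | h1 | h1
  · exact a3 h1
  · exact a2 h1
  · exact a4 h1

end Pool.Agent.H89.OD
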