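import Pool.Agent.H89.OD.PCase4
import Pool.Agent.H89.OD.L.H908R3_Disc_Case5

/-!
# Open disc: case 5 (helper33)
-/

set_option autoImplicit false

namespace Pool.Agent.H89.OD

open Complex ComplexConjugate Filter Topology
open Pool.Agent.H908R3.Disc (E IsIso gP giP gR giR Par eta e2 E_mul E_zero norm_E E_re E_im E_add
  norm_E_mul norm_gt_one cos_lt_sin conj_E E_two_pi E_pi)

/-- moving `X` a little in the direction `-v` -/
theorem ev_move5 {X p v : ℂ} (h1 : ‖X - p‖ ≤ 1) (h2 : 0 < (v * conj (X - p)).re) :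
    ∀ᶠ t : ℝ in 𝓝[>] 0, ‖X - (t : ℂ) * v - p‖ < 1 := by
  have hk : 0 < ‖v‖ ^ 2 + 1 := by positivity
  have h4 : ∀ᶠ t : ℝ in 𝓝[>] 0, t ∈ Set.Ioo (0 : ℝ) ((v * conj (X - p)).re / (‖v‖ ^ 2 + 1)) :=
    Ioo_mem_nhdsGT (div_pos h2 hk)
  filter_upwards [h4] with t ht
  obtain ⟨ht0, ht1⟩ := ht
  rw [lt_div_iff₀ hk] at ht1
  have e1 : X - (t : ℂ) * v - p = (X - p) - (t : ℂ) * v := by ring
  have e2 : ‖(X - p) - (t : ℂ) * v‖ ^ 2 = ‖X - p‖ ^ 2 + t ^ 2 * ‖v‖ ^ 2
      - 2 * t * (v * conj (X - p)).re := by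
    rw [← Complex.normSq_eq_norm_sq, Complex.normSq_sub, Complex.normSq_mul, Complex.normSq_ofReal,
      Complex.normSq_eq_norm_sq, Complex.normSq_eq_norm_sq]
    have e3 : ((X - p) * conj ((t : ℂ) * v)).re = t * (v * conj (X - p)).re := by
      rw [map_mul, Complex.conj_ofReal]
      simp only [Complex.mul_re, Complex.mul_im, Complex.conj_re, Complex.conj_im,
        Complex.ofReal_re, Complex.ofReal_im]
      ring
    rw [e3]
    ring
  rw [e1]
  have e4 : ‖(X - p) - (t : ℂ) * v‖ ^ 2 < 1 := by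
    rw [e2]
    have h5 : ‖X - p‖ ^ 2 ≤ 1 := by nlinarith [norm_nonneg (X - p)]
    nlinarith [sq_nonneg ‖v‖, mul_pos ht0 (sub_pos.2 ht1), sq_nonneg t]
  nlinarith [norm_nonneg ((X - p) - (t : ℂ) * v)]

/-- `X - t v` is near `X` -/
theorem ev_dir {X : ℂ} (v : ℂ) {P : ℂ → Prop} (h : ∀ᶠ z in 𝓝 X, P z) :
    ∀ᶠ t : ℝ in 𝓝[>] 0, P (X - (t : ℂ) * v) := by
  have h1 : Tendsto (fun t : ℝ => X - (t : ℂ) * v) (𝓝[>] 0) (𝓝 X) := by
    have h2 : Tendsto (fun t : ℝ => X - (t : ℂ) * v) (𝓝 0) (𝓝 (X - ((0 : ℝ) : ℂ) * v)) := by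
      apply Continuous.tendsto
      fun_prop
    simp only [Complex.ofReal_zero, zero_mul, sub_zero] at h2
    exact h2.mono_left nhdsWithin_le_nhds
  exact h1.eventually h

theorem pcase5 : Case5 := by
  intro b c e L1 L2 L3 hP hO h2b hA hB
  have hpi := Real.pi_pos
  have hc0 : 0 < c := by linarith [hP.b0, hP.cb]
  have hec : e ≤ c := by linarith [hP.cb, hP.cbe]
  have hlab := hO.lab
  obtain ⟨z, hz⟩ : ∃ z, z = e2 c e := ⟨_, rfl⟩
  rw [← hz] at hA hB
  obtain ⟨d, hd⟩ : ∃ d, d = 2 * Real.sin (e / 2) := ⟨_, rfl⟩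
  have hs0 : 0 < Real.sin (e / 2) :=
    Real.sin_pos_of_pos_of_lt_pi (by linarith [hP.e0]) (by linarith [hP.e3])
  have hd0 : 0 < d := by rw [hd]; linarith
  have hcos0 : 0 < Real.cos (c / 2) :=
    Real.cos_pos_of_mem_Ioo ⟨by linarith, by linarith [hP.cbe, hP.bpi, hP.e0]⟩
  -- `d cos (c/2) ≤ sin e`
  have hcosle : Real.cos (c / 2) ≤ Real.cos (e / 2) := by
    apply Real.cos_le_cos_of_nonneg_of_le_pi <;> linarith [hP.e0, hP.cbe, hP.bpi]
  have hle : d * Real.cos (c / 2) ≤ Real.sin e := by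
    have h1 : Real.sin e = 2 * Real.sin (e / 2) * Real.cos (e / 2) := by
      rw [← Real.sin_two_mul]; congr 1; ring
    rw [h1, hd]
    exact mul_le_mul_of_nonneg_left hcosle (by linarith)
  have hpos : 0 ≤ d * Real.cos (c / 2) := by positivity
  have hzdef : z = Real.arcsin (d * Real.cos (c / 2)) := by
    rw [hz, e2, hd]
  have hsz : Real.sin z = d * Real.cos (c / 2) := by
    rw [hzdef]
    exact Real.sin_arcsin (by linarith) (hle.trans (Real.sin_le_one e))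
  have hze : z ≤ e := by
    have h1 : Real.arcsin (Real.sin e) = e :=
      Real.arcsin_sin (by linarith [hP.e0]) (by linarith [hP.e3])
    rw [hzdef, ← h1]
    exact Real.monotone_arcsin hle
  obtain ⟨t, ht⟩ : ∃ t, t = Real.cos z - d * Real.sin (c / 2) := ⟨_, rfl⟩
  obtain ⟨Y, hY⟩ : ∃ Y : ℂ, Y = (t : ℂ) * E (c / 2 + Real.pi / 2) := ⟨_, rfl⟩
  have ct : Real.cos (c / 2 + Real.pi / 2) = - Real.sin (c / 2) := Real.cos_add_pi_div_two _
  have st : Real.sin (c / 2 + Real.pi / 2) = Real.cos (c / 2) := Real.sin_add_pi_div_two _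
  have hcsq := Real.sin_sq_add_cos_sq (c / 2)
  -- `Y - d = E (c/2 + π/2 + z)`
  have hY1 : Y - (d : ℂ) = E (c / 2 + Real.pi / 2 + z) := by
    rw [hY]
    apply Complex.ext
    · rw [E_re, Real.cos_add, ct, st, hsz]
      simp only [Complex.sub_re, Complex.mul_re, Complex.ofReal_re, Complex.ofReal_im, E_re, E_im,
        ct, st]
      rw [ht]
      linear_combination d * hcsq
    · rw [E_im, Real.sin_add, ct, st, hsz]
      simp only [Complex.sub_im, Complex.mul_im, Complex.ofReal_re, Complex.ofReal_im, E_re, E_im,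
        ct, st]
      rw [ht]
      ring
  have hY2 : Y + (d : ℂ) * E c = E (c / 2 + Real.pi / 2 - z) := by
    have hcc : E c = E (c / 2) * E (c / 2) := by rw [E_mul]; congr 1; ring
    rw [hY, hcc]
    apply Complex.ext
    · rw [E_re, Real.cos_sub, ct, st, hsz]
      simp only [Complex.add_re, Complex.mul_re, Complex.mul_im, Complex.ofReal_re,
        Complex.ofReal_im, E_re, E_im, ct, st]
      rw [ht]
      ring
    · rw [E_im, Real.sin_sub, ct, st, hsz]
      simp only [Complex.add_im, Complex.mul_re, Complex.mul_im, Complex.ofReal_re,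
        Complex.ofReal_im, E_re, E_im, ct, st]
      rw [ht]
      ring
  have hcfg : Cfg b (gP c d) (giP c d) L1 L2 L3 := by
    have := hO
    unfold CfgO at this
    rw [hd]
    simpa using this
  have hEE : E c * E (-c) = 1 := by rw [E_mul]; simp [E_zero]
  -- `gi Y`
  have hgi : giP c d Y = E (Real.pi / 2 - c / 2 - z) := by
    have h1 : giP c d Y = E (-c) * (Y + (d : ℂ) * E c) := by
      simp only [giP]
      linear_combination (-(d : ℂ)) * hEE
    rw [h1, hY2, E_mul]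
    congr 1
    ring
  have hg : gP c d Y = E (3 * c / 2 + Real.pi / 2 + z) := by
    simp only [gP]
    rw [hY1, E_mul]
    congr 1
    ring
  have hgg : gP c d (giP c d Y) = Y := by
    simp only [gP, giP]
    linear_combination Y * hEE
  have hgg' : giP c d (gP c d Y) = Y := by
    simp only [gP, giP]
    linear_combination (Y - d) * hEE
  have hz0 : 0 ≤ z := by rw [hzdef]; exact Real.arcsin_nonneg.2 hpos
  have hcz : 0 < Real.cos z := Real.cos_pos_of_mem_Ioo ⟨by linarith, by linarith [hP.e3]⟩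
  -- `y = Y - s E (c / 2 + π / 2)`
  have m1 : ∀ᶠ s : ℝ in 𝓝[>] 0, ‖Y - (s : ℂ) * E (c / 2 + Real.pi / 2) - (d : ℂ)‖ < 1 := by
    refine ev_move5 (by rw [hY1, norm_E]) ?_
    rw [hY1, conj_E, E_mul]
    have h1 : c / 2 + Real.pi / 2 + -(c / 2 + Real.pi / 2 + z) = -z := by ring
    rw [h1, E_re, Real.cos_neg]
    exact hcz
  have m2 : ∀ᶠ s : ℝ in 𝓝[>] 0,
      ‖Y - (s : ℂ) * E (c / 2 + Real.pi / 2) - (-((d : ℂ) * E c))‖ < 1 := by
    refine ev_move5 (by rw [sub_neg_eq_add, hY2, norm_E]) ?_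
    rw [sub_neg_eq_add, hY2, conj_E, E_mul]
    have h1 : c / 2 + Real.pi / 2 + -(c / 2 + Real.pi / 2 - z) = z := by ring
    rw [h1, E_re]
    exact hcz
  have k1 : ∀ᶠ y in 𝓝 Y, ‖y - (d : ℂ)‖ < 1 → L1 y := by
    rw [hd] at hY1 ⊢
    refine pull hO hY1 ?_
    simp only [if_true]
    refine hlab.sure3 hP.e0 hP.e3 hP.b0 hP.bpi hc0 hP.cbe (by linarith) (Or.inl (by linarith))
      (Or.inr (by linarith))
  have k2 : ∀ᶠ w in 𝓝 (E (Real.pi / 2 - c / 2 - z)), ‖w‖ < 1 → L1 w :=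
    hlab.sure1 hP.e0 hP.e3 hP.b0 hP.bpi hc0 hP.cbe (by linarith [hP.cbe, hP.b0])
      (by linarith)
  have k3 : ∀ᶠ y in 𝓝 Y, ‖giP c d y‖ < 1 → L1 (giP c d y) :=
    ev_comp (f := giP c d) (by unfold giP; fun_prop) hgi k2
  obtain ⟨s, hm1, hm2, hk1, hk3⟩ := (m1.and (m2.and ((ev_dir _ k1).and (ev_dir _ k3)))).exists
  generalize Y - (s : ℂ) * E (c / 2 + Real.pi / 2) = y at hm1 hm2 hk1 hk3
  have hn : ‖giP c d y‖ < 1 := by
    have h1 : giP c d y = E (-c) * (y - (-((d : ℂ) * E c))) := by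
      simp only [giP]
      linear_combination (-(d : ℂ)) * hEE
    rw [h1, norm_E_mul]
    exact hm2
  have hL3 : L3 y := by
    have h1 := hcfg.g13 _ (hk3 hn)
    have h2 : gP c d (giP c d y) = y := by
      simp only [gP, giP]
      linear_combination y * hEE
    rwa [h2] at h1
  exact hlab.n13 _ (hk1 hm1) hL3

end Pool.Agent.H89.OD
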