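import Pool.Agent.H89.OD.Cases
import Pool.Agent.H89.OD.L.H908R3_Disc_Case6

/-!
# Case 6 for the open disc
-/

set_option autoImplicit false

namespace Pool.Agent.H89.OD

open Complex ComplexConjugate Filter Topology
open Pool.Agent.H908R3.Disc (E IsIso gP giP gR giR Par eta e2 E_mul E_zero norm_E E_re E_im E_add
  norm_E_mul norm_gt_one cos_lt_sin conj_E E_two_pi E_add_pi E_eq)

/-- strict version of `norm_le_one` -/
theorem norm_lt_one' {z : ℂ} (h : z.re ^ 2 + z.im ^ 2 < 1) : ‖z‖ < 1 := by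
  have h1 : ‖z‖ ^ 2 = z.re ^ 2 + z.im ^ 2 := by
    rw [← Complex.normSq_eq_norm_sq, Complex.normSq_apply]
    ring
  have h2 := norm_nonneg z
  nlinarith

theorem pcase6 : Case6 := by
  intro b c e L1 L2 L3 hp h hbe hb35 hcb hcb2 h6
  have F := Pool.Agent.H908R3.Disc.C6.facts hp hbe hb35 hcb hcb2 h6
  have hl := CfgO.lab h
  have hC : Cfg b (gP c (2 * Real.sin (e/2))) (giP c (2 * Real.sin (e/2))) L1 L2 L3 := h
  obtain ⟨b0, bpi, e0, e3, cb, cbe, bpe⟩ := hp
  have hpi := Real.pi_pos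
  have hm1 := hl.m1
  have hm2 := hl.m2
  have hm3 := hl.m3
  set d : ℝ := 2 * Real.sin (e/2) with hd
  set τ : ℝ := Real.arcsin d with hτ
  obtain ⟨Δ, hΔ⟩ : ∃ Δ : ℝ, Δ = (b - c) / 2 := ⟨_, rfl⟩
  obtain ⟨K, hK⟩ : ∃ K : ℝ, K = (b + c) / 2 := ⟨_, rfl⟩
  rw [← hΔ, ← hK] at F
  have hb : b = K + Δ := by rw [hΔ, hK]; ring
  have hc : c = K - Δ := by rw [hΔ, hK]; ring
  obtain ⟨d0, d1, st, ct, t0, tc, t3, D0, D1, D2, K0, K1, KD, C0⟩ := F
  have hst2 := Real.sin_sq_add_cos_sq τ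
  have hsK2 := Real.sin_sq_add_cos_sq K
  have hsD2 := Real.sin_sq_add_cos_sq Δ
  rw [st] at hst2
  -- the facts near the base point
  have hw : ∀ᶠ z in 𝓝 (E (τ - Δ)), ‖z‖ < 1 → L1 z :=
    hl.sure1 e0 e3 b0 bpi (by linarith) cbe (by rw [hΔ]; linarith) (by rw [hΔ]; linarith)
  have hEE : E b * (E c * (E (τ - Δ) - d)) =
      d + E K * (E (c + τ) - ((2 * d * Real.cos K : ℝ) : ℂ)) := by
    have e1 : E b * (E c * E (τ - Δ)) = E K * E (c + τ) := by
      rw [E_mul, E_mul, E_mul]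
      congr 1
      rw [hb]; ring
    have e2 : E b * E c = E K * E K := by
      rw [E_mul, E_mul]
      congr 1
      rw [hb, hc]; ring
    have e3 : ((2 * d * Real.cos K : ℝ) : ℂ) = d * (E K + E (-K)) := by
      rw [E_eq, E_eq, Real.cos_neg, Real.sin_neg]
      push_cast
      ring
    have e4 : E K * E (-K) = 1 := by rw [E_mul]; simp [E_zero]
    rw [e3]
    linear_combination e1 - d * e2 + d * e4
  have ht3' : ∀ᶠ z in 𝓝 (E (τ - Δ)), ¬ ‖E b * (E c * (z - d)) - d‖ < 1 := by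
    refine ev_gt (f := fun z => E b * (E c * (z - d)) - d) (by fun_prop) ?_
    rw [hEE, add_sub_cancel_left, norm_E_mul]
    refine norm_gt_one ?_
    simp only [Complex.sub_re, Complex.sub_im, Complex.ofReal_re, Complex.ofReal_im, E_re, E_im]
    have h3 : 0 ≤ Real.cos (c + τ) := Real.cos_nonneg_of_mem_Icc ⟨by linarith, by linarith⟩
    have h4 := Real.sin_sq_add_cos_sq (c + τ)
    have h5 : 0 < d * Real.cos K * (d * Real.cos K) := by
      have : d * Real.cos K < 0 := mul_neg_of_pos_of_neg d0 K0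
      nlinarith
    have h6 : 0 ≤ Real.cos (c + τ) * (-(d * Real.cos K)) := by
      have : d * Real.cos K < 0 := mul_neg_of_pos_of_neg d0 K0
      exact mul_nonneg h3 (by linarith)
    nlinarith
  -- the limit of `v`
  obtain ⟨v0, hv0⟩ : ∃ v0 : ℂ, v0 = (d : ℂ) + E (-c) * (d + E b * (E (τ - Δ) - d)) := ⟨_, rfl⟩
  have hvE : v0 = E Δ * (E τ - ((2 * d * Real.sin Δ : ℝ) : ℂ) * Complex.I + d * E (-K)) := by
    have e1 : E (-c) * (E b * E (τ - Δ)) = E Δ * E τ := by
      rw [E_mul, E_mul, E_mul]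
      congr 1
      rw [hb, hc]; ring
    have e2 : E (-c) * E b = E Δ * E Δ := by
      rw [E_mul, E_mul]
      congr 1
      rw [hb, hc]; ring
    have e3 : ((2 * d * Real.sin Δ : ℝ) : ℂ) * Complex.I = d * (E Δ - E (-Δ)) := by
      rw [E_eq, E_eq, Real.cos_neg, Real.sin_neg]
      push_cast
      ring
    have e4 : E Δ * E (-Δ) = 1 := by rw [E_mul]; simp [E_zero]
    have e5 : E (-c) = E Δ * E (-K) := by
      rw [E_mul]
      congr 1
      rw [hc]; ring
    rw [hv0, e3]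
    linear_combination e1 - d * e2 - d * e4 + d * e5
  have hv1 : ‖v0‖ < 1 := by
    rw [hvE, norm_E_mul]
    refine norm_lt_one' ?_
    simp only [Complex.sub_re, Complex.sub_im, Complex.add_re, Complex.add_im, Complex.mul_re,
      Complex.mul_im, Complex.ofReal_re, Complex.ofReal_im, E_re, E_im, Complex.I_re,
      Complex.I_im, Real.cos_neg, Real.sin_neg, st]
    have h1 : 0 ≤ (1 - 2 * Real.sin Δ) * (2 * Real.sin K - (1 - 2 * Real.sin Δ)) :=
      mul_nonneg (by linarith) (by linarith)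
    have h2 : 0 ≤ d * d * ((1 - 2 * Real.sin Δ) * (2 * Real.sin K - (1 - 2 * Real.sin Δ))) :=
      mul_nonneg (by positivity) h1
    have h3 : 0 < d * (Real.cos τ * (-Real.cos K)) :=
      mul_pos d0 (mul_pos (by linarith) (by linarith))
    nlinarith
  have hv2 : ¬ ‖v0 - d * E b‖ ≤ 1 := by
    intro h2
    have h3 : v0 - d * E b = E Δ * (E τ - ((2 * d * Real.sin Δ : ℝ) : ℂ) * Complex.I -
        ((2 * d * Real.sin K : ℝ) : ℂ) * Complex.I) := by
      have e3 : ((2 * d * Real.sin K : ℝ) : ℂ) * Complex.I = d * (E K - E (-K)) := by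
        rw [E_eq, E_eq, Real.cos_neg, Real.sin_neg]
        push_cast
        ring
      have e5 : E b = E Δ * E K := by
        rw [E_mul]
        congr 1
        rw [hb]; ring
      rw [hvE, e3, e5]
      ring
    rw [h3, norm_E_mul] at h2
    refine norm_gt_one ?_ h2
    simp only [Complex.sub_re, Complex.sub_im, Complex.add_re, Complex.add_im, Complex.mul_re,
      Complex.mul_im, Complex.ofReal_re, Complex.ofReal_im, E_re, E_im, Complex.I_re,
      Complex.I_im, Real.cos_neg, Real.sin_neg, st]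
    have h4 : 0 < (Real.sin Δ + Real.sin K) * (Real.sin Δ + Real.sin K - 1) :=
      mul_pos (by linarith) (by linarith)
    have h5 : 0 < d * d * ((Real.sin Δ + Real.sin K) * (Real.sin Δ + Real.sin K - 1)) :=
      mul_pos (by positivity) h4
    nlinarith
  have hv3 : ¬ ‖v0 + d * E c‖ ≤ 1 := by
    intro h2
    have h3 : v0 + d * E c = E Δ * (E τ - ((2 * d * Real.sin Δ : ℝ) : ℂ) * Complex.I +
        ((2 * d * Real.cos c : ℝ) : ℂ) * E (-Δ)) := by
      have e3 : ((2 * d * Real.cos c : ℝ) : ℂ) = d * (E c + E (-c)) := by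
        rw [E_eq, E_eq, Real.cos_neg, Real.sin_neg]
        push_cast
        ring
      have e5 : E (-K) = E (-c) * E (-Δ) := by
        rw [E_mul]
        congr 1
        rw [hc]; ring
      have e4 : E Δ * E (-Δ) = 1 := by rw [E_mul]; simp [E_zero]
      rw [hvE, e3, e5]
      linear_combination (-(d : ℂ) * E c) * e4
    rw [h3, norm_E_mul] at h2
    refine norm_gt_one ?_ h2
    simp only [Complex.sub_re, Complex.sub_im, Complex.add_re, Complex.add_im, Complex.mul_re,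
      Complex.mul_im, Complex.ofReal_re, Complex.ofReal_im, E_re, E_im, Complex.I_re,
      Complex.I_im, Real.cos_neg, Real.sin_neg, st]
    set C := Real.cos c with hCdef
    set S := Real.sin Δ with hS
    set Y := Real.cos Δ with hY
    set T := Real.cos τ with hT
    have hC1 : C ≤ 1 := Real.cos_le_one c
    have hTY : 0.731 ≤ T * Y := by nlinarith
    have g1 : 0.731 * d ≤ C * (T * Y) := by
      calc 0.731 * d ≤ (T * Y) * d := mul_le_mul_of_nonneg_right hTY d0.le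
        _ ≤ (T * Y) * C := mul_le_mul_of_nonneg_left C0 (by linarith)
        _ = C * (T * Y) := mul_comm _ _
    have g2 : -(1 / 4) - 1 / 256 ≤ S ^ 2 - S + (C ^ 2 + C * (2 * S ^ 2 - S)) := by
      nlinarith [sq_nonneg (S - 1 / 2), sq_nonneg (S - 1 / 4), sq_nonneg (C - 1 / 16),
        mul_nonneg (d0.le.trans C0) (sq_nonneg (S - 1 / 4))]
    have g3 : 0 < C * (T * Y) + d * (S ^ 2 - S + (C ^ 2 + C * (2 * S ^ 2 - S))) := by
      have := mul_le_mul_of_nonneg_left g2 d0.le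
      nlinarith
    have g4 : 0 < 4 * d * (C * (T * Y) + d * (S ^ 2 - S + (C ^ 2 + C * (2 * S ^ 2 - S)))) :=
      mul_pos (by positivity) g3
    have hY2 : Y ^ 2 = 1 - S ^ 2 := by linarith
    have hT2 : T ^ 2 = 1 - d ^ 2 := by linarith
    have g5 : (T - (2 * d * S * 0 - 0 * 1) + (2 * d * C * Y - 0 * -S)) ^ 2 +
        (d - (2 * d * S * 1 + 0 * 0) + (2 * d * C * -S + 0 * Y)) ^ 2 =
        1 + 4 * d * (C * (T * Y) + d * (S ^ 2 - S + (C ^ 2 + C * (2 * S ^ 2 - S)))) := by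
      linear_combination hT2 + 4 * d ^ 2 * C ^ 2 * hY2
    rw [g5]
    linarith
  have hv1' : ∀ᶠ z in 𝓝 (E (τ - Δ)), ‖(d : ℂ) + E (-c) * (d + E b * (z - d))‖ < 1 := by
    refine ev_lt (f := fun z => (d : ℂ) + E (-c) * (d + E b * (z - d))) (by fun_prop) ?_
    rw [← hv0]
    exact hv1
  have hv2' : ∀ᶠ z in 𝓝 (E (τ - Δ)),
      ¬ ‖(d : ℂ) + E (-c) * (d + E b * (z - d)) - d * E b‖ < 1 := by
    refine ev_gt (f := fun z => (d : ℂ) + E (-c) * (d + E b * (z - d)) - d * E b)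
      (by fun_prop) ?_
    rw [← hv0]
    exact hv2
  have hv3' : ∀ᶠ z in 𝓝 (E (τ - Δ)),
      ¬ ‖(d : ℂ) + E (-c) * (d + E b * (z - d)) + d * E c‖ < 1 := by
    refine ev_gt (f := fun z => (d : ℂ) + E (-c) * (d + E b * (z - d)) + d * E c)
      (by fun_prop) ?_
    rw [← hv0]
    exact hv3
  obtain ⟨z, hz1, hwz, htz, hvz1, hvz2, hvz3⟩ :=
    exists_in (hw.and (ht3'.and (hv1'.and (hv2'.and hv3'))))
  -- the argument for `z`
  have hgw : L3 (E c * (z - d)) := hC.g13 _ (hwz hz1)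
  have ht1 : ‖E b * (E c * (z - d))‖ < 1 := by
    rw [norm_E_mul]
    exact hl.in3 _ hgw
  have ht2 : ¬ L2 (E b * (E c * (z - d))) := hl.not2_of (fun h1 => hl.n13 _ h1 hgw)
  have ht3 : ¬ L1 (E b * (E c * (z - d))) := fun h1 => htz (hm1 _ h1)
  have ht4 : L3 (E b * (E c * (z - d))) := by
    rcases hl.cov _ ht1 with h1 | h1 | h1
    · exact absurd h1 ht3
    · exact absurd h1 ht2
    · exact h1
  -- the point `u`
  have hu : L1 ((d : ℂ) + E (-c) * (E b * (E c * (z - d)))) := hC.g31 _ ht4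
  have hu' : (d : ℂ) + E (-c) * (E b * (E c * (z - d))) = d + E b * (z - d) := by
    have e4 : E (-c) * E c = 1 := by rw [E_mul]; simp [E_zero]
    linear_combination (E b * (z - d)) * e4
  rw [hu'] at hu
  -- the point `v`
  obtain ⟨v, hv⟩ : ∃ v : ℂ, v = (d : ℂ) + E (-c) * (d + E b * (z - d)) := ⟨_, rfl⟩
  rw [← hv] at hvz1 hvz2 hvz3
  have hgv : gP c d v = d + E b * (z - d) := by
    unfold gP
    have e4 : E c * E (-c) = 1 := by rw [E_mul]; simp [E_zero]
    rw [hv, add_sub_cancel_left, ← mul_assoc, e4, one_mul]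
  have hv4 : L1 v := by
    rcases hl.cov _ hvz1 with h1 | h1 | h1
    · exact h1
    · exact absurd (hm2 _ h1) hvz2
    · exact absurd (hm3 _ h1) hvz3
  have hfin := hC.g13 _ hv4
  rw [hgv] at hfin
  exact hl.n13 _ hu hfin

end Pool.Agent.H89.OD
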