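import Pool.Agent.H89.OD.Cases
import Pool.Agent.H89.OD.L.H908R3_Disc_Case7

/-!
# Open disc: case 7
-/

set_option autoImplicit false

namespace Pool.Agent.H89.OD

open Complex ComplexConjugate Filter Topology
open Pool.Agent.H908R3.Disc (E IsIso gP giP gR giR Par eta e2 E_mul E_zero norm_E E_re E_im E_add
  norm_E_mul norm_gt_one cos_lt_sin conj_E E_two_pi E_add_pi)
open Pool.Agent.H908R3.Disc.C7

theorem pcase7 : Case7 := by
  intro b c e L1 L2 L3 hp h hb hc hz0
  have hlab := h.lab
  have hpi := Real.pi_pos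
  obtain ⟨b0, bpi, e0, e3, cb, cbe, bpe⟩ := hp
  unfold CfgO at h
  simp only [if_true] at h
  obtain ⟨d, hd⟩ : ∃ d, d = 2 * Real.sin (e / 2) := ⟨_, rfl⟩
  obtain ⟨z, hz⟩ : ∃ z, z = e2 c e := ⟨_, rfl⟩
  obtain ⟨q, hq⟩ : ∃ q, q = Real.cos (c / 2) := ⟨_, rfl⟩
  rw [← hz] at hz0
  rw [← hd] at h
  have c0 : 0 < c := by linarith
  have cpi : c < Real.pi := by linarith
  have hd0 : 0 < d := by
    rw [hd]
    have := Real.sin_pos_of_pos_of_lt_pi (x := e / 2) (by linarith) (by linarith)
    linarith
  have hd1 : d ≤ 1 := by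
    have h1 : Real.sin (e / 2) ≤ Real.sin (Real.pi / 6) := by
      apply Real.sin_le_sin_of_le_of_le_pi_div_two <;> linarith
    rw [Real.sin_pi_div_six] at h1
    rw [hd]
    linarith
  have hq0 : 0 < q := by
    rw [hq]
    apply Real.cos_pos_of_mem_Ioo
    constructor <;> linarith
  have hq1 : q ≤ 1 := by rw [hq]; exact Real.cos_le_one _
  have hdq0 : 0 < d * q := mul_pos hd0 hq0
  have hdq1 : d * q ≤ 1 := by nlinarith
  have hz' : z = Real.arcsin (d * q) := by rw [hz, hd, hq]; rfl
  have hsz : Real.sin z = d * q := by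
    rw [hz']
    exact Real.sin_arcsin (by linarith) hdq1
  have z0 : 0 < z := by rw [hz']; exact Real.arcsin_pos.mpr hdq0
  have zpi : z ≤ Real.pi / 2 := by rw [hz']; exact Real.arcsin_le_pi_div_two _
  -- first: c > 2 π / 3
  have hc23 : 2 * Real.pi / 3 < c := by
    by_contra hcon
    push Not at hcon
    have h1 : Real.sin z ≤ Real.sin (3 * c / 2 - e / 2) := by
      have h2 : Real.sin (3 * c / 2 - e / 2) - 2 * Real.sin (e / 2) * Real.cos (c / 2)
          = (4 * Real.cos (c / 2) ^ 2 - 1) * Real.sin (c / 2 - e / 2) := by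
        have h3 : 3 * c / 2 - e / 2 = 3 * (c / 2) - e / 2 := by ring
        rw [h3, Real.sin_sub, Real.sin_sub, Real.sin_three_mul, Real.cos_three_mul]
        have h4 := Real.sin_sq_add_cos_sq (c / 2)
        linear_combination (-4 * Real.sin (c / 2) * Real.cos (e / 2)) * h4
      have h5 : (1 : ℝ) / 2 ≤ Real.cos (c / 2) := by
        rw [← Real.cos_pi_div_three]
        apply Real.cos_le_cos_of_nonneg_of_le_pi <;> linarith
      have h6 : 0 ≤ Real.sin (c / 2 - e / 2) := by
        apply Real.sin_nonneg_of_nonneg_of_le_pi <;> linarith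
      have h7 : 0 ≤ (4 * Real.cos (c / 2) ^ 2 - 1) * Real.sin (c / 2 - e / 2) := by
        apply mul_nonneg _ h6
        nlinarith
      rw [hsz, hd, hq]
      linarith
    have h2 : z ≤ Real.pi - 3 * c / 2 + e / 2 := by
      by_contra hcon2
      push Not at hcon2
      have h3 : Real.sin (Real.pi - 3 * c / 2 + e / 2) < Real.sin z := by
        apply Real.sin_lt_sin_of_lt_of_le_pi_div_two <;> linarith
      have h4 : Real.pi - 3 * c / 2 + e / 2 = Real.pi - (3 * c / 2 - e / 2) := by ring
      rw [h4, Real.sin_pi_sub] at h3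
      linarith
    linarith
  have hze : z < e / 2 := by
    by_contra hcon
    push Not at hcon
    have h1 : Real.sin (e / 2) ≤ Real.sin z := by
      apply Real.sin_le_sin_of_le_of_le_pi_div_two <;> linarith
    have h2 : q < 1 / 2 := by
      rw [hq, ← Real.cos_pi_div_three]
      apply Real.cos_lt_cos_of_nonneg_of_le_pi <;> linarith
    have h3 : d * q < d * (1 / 2) := mul_lt_mul_of_pos_left h2 hd0
    rw [hsz] at h1
    linarith
  -- the point w
  obtain ⟨a, ha⟩ : ∃ a, a = b + c / 2 - 3 * Real.pi / 2 + z := ⟨_, rfl⟩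
  have hw1 : ∀ᶠ w in 𝓝 (E a), ‖w‖ < 1 → L1 w := by
    apply hlab.sure1 e0 e3 b0 bpi c0 cbe <;> linarith
  have eb1 := E_neg_mul b
  have ec1 := E_neg_mul c
  -- the point t
  have ht2 : ¬ ‖E (-b) * (E c * (E a - d)) - (d : ℂ) * E b‖ ≤ 1 := by
      refine not_le_one ?_
      have h3 : E (-b) * (E c * (E a - d)) - (d : ℂ) * E b
          = E (c - b) * (E a - ((2 * d * Real.cos (b - c / 2) : ℝ) : ℂ) * E (b - c / 2)) := by
        have h4 : ((2 * d * Real.cos (b - c / 2) : ℝ) : ℂ)
            = (d : ℂ) * (E (b - c / 2) + E (-(b - c / 2))) := by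
          rw [E_half_sum]
          push_cast
          ring
        have h5 : E (-b) * E c = E (c - b) := by rw [E_mul]; congr 1; ring
        have h6 : E (c - b) * (E (b - c / 2) * E (b - c / 2)) = E b := by
          rw [E_mul, E_mul]; congr 1; ring
        have h7 : E (-(b - c / 2)) * E (b - c / 2) = 1 := E_neg_mul _
        rw [h4]
        linear_combination (E a - d) * h5 + (d : ℂ) * h6 + (d : ℂ) * E (c - b) * h7
      rw [h3, norm_E_mul, nsq_sub]
      have hβ : 0 < Real.cos (b - c / 2) := by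
        apply Real.cos_pos_of_mem_Ioo
        constructor <;> linarith
      have h8 : Real.cos (a - (b - c / 2)) = - Real.sin (c + z) := by
        have h9 : a - (b - c / 2) = (c + z) + Real.pi / 2 - 2 * Real.pi := by rw [ha]; ring
        rw [h9, Real.cos_sub_two_pi, Real.cos_add_pi_div_two]
      have h10 : 0 ≤ Real.sin (c + z) := by
        apply Real.sin_nonneg_of_nonneg_of_le_pi <;> linarith
      rw [h8]
      have h11 : 0 < d * Real.cos (b - c / 2) := mul_pos hd0 hβ
      nlinarith [mul_nonneg h11.le h10, mul_pos h11 h11]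
  -- the point v
  obtain ⟨v, hv⟩ : ∃ v, v = giP c d ((d : ℂ) + E (-b) * (E a - d)) := ⟨_, rfl⟩
  obtain ⟨α, hα⟩ : ∃ α, α = b + c / 2 - z + Real.pi / 2 := ⟨_, rfl⟩
  have hX : E (b + c) * v = E α - (d : ℂ) := by
    have hA : E a = Complex.I * E (b + c / 2) * E z := by
      rw [← E_half_pi, E_mul, E_mul, ← E_two_pi a]
      congr 1
      rw [ha]
      ring
    have hB : E α = Complex.I * E (b + c / 2) * E (-z) := by
      rw [← E_half_pi, E_mul, E_mul]
      congr 1
      rw [hα]
      ring
    have h1 : E (b + c) * E (-c) = E b := by rw [E_mul]; congr 1; ring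
    have h2 : E (b + c) * (E (-c) * E (-b)) = 1 := by
      rw [E_mul, E_mul, ← E_zero]; congr 1; ring
    have h3 : E (b + c / 2) * E (c / 2) = E (b + c) := by rw [E_mul]; congr 1; ring
    have h4 : E (b + c / 2) * E (-(c / 2)) = E b := by rw [E_mul]; congr 1; ring
    have h5 := E_half_sum (c / 2)
    have h6 := E_half_diff z
    have h7 : ((2 * Real.sin z : ℝ) : ℂ) = (d : ℂ) * ((2 * Real.cos (c / 2) : ℝ) : ℂ) := by
      rw [hsz, hq]
      push_cast
      ring
    have h8 : Complex.I * Complex.I = -1 := Complex.I_mul_I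
    rw [hv]
    unfold giP
    rw [hA, hB]
    linear_combination (d : ℂ) * h1 + (Complex.I * E (b + c / 2) * E z - d) * h2
      - (d : ℂ) * h3 - (d : ℂ) * h4 + (d : ℂ) * E (b + c / 2) * h5 - E (b + c / 2) * h7
      + Complex.I * E (b + c / 2) * h6 + E (b + c / 2) * ((2 * Real.sin z : ℝ) : ℂ) * h8
  have hvn : ‖v‖ < 1 := by
    rw [← norm_E_mul (b + c) v, hX]
    have lt_one : ∀ x : ℂ, ‖x‖ ^ 2 < 1 → ‖x‖ < 1 := fun x hx => by nlinarith [norm_nonneg x]
    apply lt_one
    have h1 := nsq_sub α 0 d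
    rw [E_zero, mul_one, sub_zero] at h1
    rw [h1]
    have h2 : Real.cos α = Real.sin (b + c / 2 - Real.pi - z) := by
      have h3 : α = (b + c / 2 - Real.pi - z) - Real.pi / 2 + 2 * Real.pi := by rw [hα]; ring
      rw [h3, Real.cos_add_two_pi, Real.cos_sub_pi_div_two]
    have h4 : Real.sin (e / 2) < Real.sin (b + c / 2 - Real.pi - z) := by
      apply Real.sin_lt_sin_of_lt_of_le_pi_div_two <;> linarith
    rw [h2]
    nlinarith
  -- the point y
  have hy1 : ¬ ‖E b * v - (d : ℂ)‖ ≤ 1 := by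
    refine not_le_one ?_
    have h3 : E c * (E b * v - (d : ℂ)) = E α - ((2 * Real.sin z : ℝ) : ℂ) * E (c / 2) := by
      have h4 : E c * E b = E (b + c) := by rw [E_mul]; congr 1; ring
      have h5 := E_half_sum (c / 2)
      have h6 : E (c / 2) * E (c / 2) = E c := by rw [E_mul]; congr 1; ring
      have h7 : ((2 * Real.sin z : ℝ) : ℂ) = (d : ℂ) * ((2 * Real.cos (c / 2) : ℝ) : ℂ) := by
        rw [hsz, hq]
        push_cast
        ring
      have h8 := E_neg_mul (c / 2)
      rw [h7]
      linear_combination v * h4 + hX - (d : ℂ) * E (c / 2) * h5 + (d : ℂ) * h6 + (d : ℂ) * h8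
    rw [← norm_E_mul c, h3, nsq_sub]
    have h9 : Real.cos (α - c / 2) = - Real.sin (b - z) := by
      have h10 : α - c / 2 = (b - z) + Real.pi / 2 := by rw [hα]; ring
      rw [h10, Real.cos_add_pi_div_two]
    have h11 : 0 < Real.sin (b - z) := by
      apply Real.sin_pos_of_pos_of_lt_pi <;> linarith
    rw [h9]
    have h12 : 0 < Real.sin z := by rw [hsz]; exact hdq0
    nlinarith [mul_pos h12 h11, mul_pos h12 h12]
  have hy3 : ¬ ‖E b * v + (d : ℂ) * E c‖ ≤ 1 := by
    refine not_le_one ?_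
    have h3 : E c * (E b * v + (d : ℂ) * E c)
        = E α - ((-(4 * Real.sin z * Real.sin (c / 2)) : ℝ) : ℂ) * E (c + Real.pi / 2) := by
      have h4 : E c * E b = E (b + c) := by rw [E_mul]; congr 1; ring
      have h5 := E_half_diff c
      have h6 : E (c + Real.pi / 2) = E c * Complex.I := by rw [← E_half_pi, E_mul]
      have h7 : ((-(4 * Real.sin z * Real.sin (c / 2)) : ℝ) : ℂ)
          = -((d : ℂ) * ((2 * Real.sin c : ℝ) : ℂ)) := by
        have h9 : Real.sin c = 2 * Real.sin (c / 2) * Real.cos (c / 2) := by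
          rw [← Real.sin_two_mul]; congr 1; ring
        rw [hsz, hq, h9]
        push_cast
        ring
      have h8 := E_neg_mul c
      rw [h7, h6]
      linear_combination v * h4 + hX + (d : ℂ) * E c * h5 + (d : ℂ) * h8
    rw [← norm_E_mul c, h3, nsq_sub]
    have h9 : Real.cos (α - (c + Real.pi / 2)) = Real.cos (b - c / 2 - z) := by
      congr 1
      rw [hα]
      ring
    have h11 : 0 < Real.cos (b - c / 2 - z) := by
      apply Real.cos_pos_of_mem_Ioo
      constructor <;> linarith
    have h12 : 0 < Real.sin z := by rw [hsz]; exact hdq0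
    have h13 : 0 < Real.sin (c / 2) := by
      apply Real.sin_pos_of_pos_of_lt_pi <;> linarith
    rw [h9]
    have h14 : 0 < Real.sin z * Real.sin (c / 2) := mul_pos h12 h13
    nlinarith [mul_pos h14 h11, mul_pos h14 h14]
  -- move the point `E a`
  have k0 : Continuous fun w : ℂ => giP c d ((d : ℂ) + E (-b) * (w - d)) := by
    unfold giP; fun_prop
  have k1 := ev_gt (f := fun w : ℂ => E (-b) * (E c * (w - d)) - (d : ℂ) * E b) (p := E a)
    (by fun_prop) ht2
  have k2 := ev_lt (f := fun w : ℂ => giP c d ((d : ℂ) + E (-b) * (w - d))) (p := E a)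
    k0.continuousAt (by rw [← hv]; exact hvn)
  have k3 := ev_gt (f := fun w : ℂ => E b * giP c d ((d : ℂ) + E (-b) * (w - d)) - (d : ℂ))
    (p := E a) (((continuous_const.mul k0).sub continuous_const).continuousAt)
    (by rw [← hv]; exact hy1)
  have k4 := ev_gt (f := fun w : ℂ => E b * giP c d ((d : ℂ) + E (-b) * (w - d)) + (d : ℂ) * E c)
    (p := E a) (((continuous_const.mul k0).add continuous_const).continuousAt)
    (by rw [← hv]; exact hy3)
  obtain ⟨w, hwn1, hw1, m1, m2, m3, m4⟩ := exists_in (hw1.and (k1.and (k2.and (k3.and k4))))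
  have hw1 := hw1 hwn1
  have hwn : ‖w - (d : ℂ)‖ < 1 := by
    have := hlab.m1 _ hw1
    rwa [← hd] at this
  have hgw : L3 (E c * (w - d)) := h.g13 _ hw1
  have htL3 : L3 (E (-b) * (E c * (w - d))) := by
    rcases h.cov (E (-b) * (E c * (w - d))) (by rw [norm_E_mul, norm_E_mul]; exact hwn)
      with h1 | h1 | h1
    · exfalso
      have h2 := h.r12 _ h1
      have h3 : E b * (E (-b) * (E c * (w - d))) = E c * (w - d) := by
        linear_combination (E c * (w - d)) * eb1
      rw [h3] at h2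
      exact h.n23 _ h2 hgw
    · exfalso
      have h2 := hlab.m2 _ h1
      rw [← hd] at h2
      exact m1 h2
    · exact h1
  have hu : L1 ((d : ℂ) + E (-b) * (w - d)) := by
    have h1 := h.g31 _ htL3
    have h2 : giP c d (E (-b) * (E c * (w - d))) = (d : ℂ) + E (-b) * (w - d) := by
      unfold giP
      linear_combination (E (-b) * (w - d)) * ec1
    rwa [h2] at h1
  rcases h.cov (E b * giP c d ((d : ℂ) + E (-b) * (w - d))) (by rw [norm_E_mul]; exact m2)
    with h1 | h1 | h1
  · have h2 := hlab.m1 _ h1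
    rw [← hd] at h2
    exact m3 h2
  · have h2 := h.r21 _ h1
    have h3 : E (-b) * (E b * giP c d ((d : ℂ) + E (-b) * (w - d))) =
        giP c d ((d : ℂ) + E (-b) * (w - d)) := by
      linear_combination giP c d ((d : ℂ) + E (-b) * (w - d)) * eb1
    rw [h3] at h2
    have h4 := h.g13 _ h2
    have h5 : gP c d (giP c d ((d : ℂ) + E (-b) * (w - d))) = (d : ℂ) + E (-b) * (w - d) := by
      unfold gP giP
      linear_combination ((d : ℂ) + E (-b) * (w - d)) * ec1
    rw [h5] at h4
    exact h.n13 _ hu h4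
  · have h2 := hlab.m3 _ h1
    rw [← hd] at h2
    exact m4 h2

end Pool.Agent.H89.OD
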