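import Pool.Agent.H89.OD.Cases
import Pool.Agent.H89.OD.L.H908R3_Disc_Case8

/-!
# Open disc: certificate 8
-/

set_option autoImplicit false

namespace Pool.Agent.H89.OD

open Complex ComplexConjugate Filter Topology
open Pool.Agent.H908R3.Disc (E IsIso gP giP gR giR Par eta e2 E_mul E_zero norm_E E_re E_im E_add
  norm_E_mul norm_gt_one norm_le_one cos_lt_sin conj_E E_two_pi E_pi E_add_pi)
open Pool.Agent.H908R3.Disc.C8 (E_sub nsq2 nsq3 facts)

namespace P8

theorem norm_lt_one {w : ℂ} (h : w.re ^ 2 + w.im ^ 2 < 1) : ‖w‖ < 1 := by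
  have h1 : ‖w‖ ^ 2 < 1 := by
    rw [← Complex.normSq_eq_norm_sq, Complex.normSq_apply]
    nlinarith
  nlinarith [norm_nonneg w]

end P8

theorem pcase8 : Case8 := by
  intro b c e L1 L2 L3 hP hC hb1 hc hb2 hb3
  obtain ⟨hb0, hbpi, he0, he3, hcb, hcbe, hbpe⟩ := hP
  have hpi := Real.pi_pos
  have L := hC.lab
  have hC' : Cfg b (gP c (2 * Real.sin (e / 2))) (giP c (2 * Real.sin (e / 2))) L1 L2 L3 := by
    unfold CfgO at hC
    simpa using hC
  obtain ⟨hd0, hb35, hx1, hx2, hq, h6⟩ := facts hb0 he0 he3 hb2 hb3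
  have hm1 := L.m1
  have hm2 := L.m2
  have hm3 := L.m3
  generalize hd : 2 * Real.sin (e / 2) = d at *
  have hc0 : 0 < c := by linarith
  -- the angle `τ`
  have hcosb : - Real.cos b ≤ 1 := by linarith [Real.neg_one_le_cos b]
  set τ := Real.arcsin (6 * d / 5) with hτ
  have hS : Real.sin τ = 6 * d / 5 := Real.sin_arcsin (by linarith) (by linarith)
  have hτ0 : 0 ≤ τ := Real.arcsin_nonneg.2 (by linarith)
  have hτb : τ ≤ b - Real.pi / 2 := by
    rw [hτ, Real.arcsin_le_iff_le_sin ⟨by linarith, by linarith⟩ ⟨by linarith, by linarith⟩,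
      Real.sin_sub_pi_div_two]
    exact h6
  have hK : 0 < Real.cos τ := Real.cos_pos_of_mem_Ioo ⟨by linarith, by linarith⟩
  have hcos : Real.cos (b - τ) ≤ 0 := by
    apply Real.cos_nonpos_of_pi_div_two_le_of_le <;> linarith
  have h3b : 0 < Real.sin (3 * b / 2) :=
    Real.sin_pos_of_pos_of_lt_pi (by linarith) (by linarith)
  -- `X`
  set p : ℝ := -Real.pi / 2 - b / 2 - τ with hp
  set X : ℂ := (d : ℂ) + E p with hX
  set a0 : ℝ := 5 * Real.pi / 2 - 3 * b / 2 - τ with ha0
  have hgX : gP c d X = E a0 := by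
    have e1 : a0 = (c + p) + 2 * Real.pi := by
      rw [ha0, hp, hc]; ring
    rw [e1, E_two_pi, E_add]
    simp only [gP, hX]
    ring
  have hgig : ∀ x, giP c d (gP c d x) = x := by
    intro x
    simp only [giP, gP]
    have h4 : E (-c) * E c = 1 := by rw [E_mul]; simp [E_zero]
    linear_combination (x - d) * h4
  have hgi : giP c d (E a0) = X := by rw [← hgX, hgig]
  have F1 : ∀ᶠ z in 𝓝 (E a0), ‖z‖ < 1 → L3 z := by
    rw [ha0]
    apply L.sure3 he0 he3 hb0 hbpi hc0 hcbe (by linarith)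
    · left; linarith
    · right; rw [hc]; linarith
  -- `Y`
  set Y : ℂ := E (2 * b) * X with hY
  have e7 : Real.cos (p - (Real.pi / 2 - 3 * b / 2)) = - Real.cos (b - τ) := by
    rw [← Real.cos_sub_pi]; congr 1; rw [hp]; ring
  have F2 : ∀ᶠ z in 𝓝 (E a0), ¬ ‖E (2 * b) * giP c d z + (d : ℂ) * E c‖ < 1 := by
    apply ev_gt (f := fun z => E (2 * b) * giP c d z + (d : ℂ) * E c)
    · simp only [giP]; fun_prop
    · rw [hgi, ← hY]
      have e1 : Y + (d : ℂ) * E c =
          E (2 * b) * (E p + ((2 * d * Real.sin (3 * b / 2) : ℝ) : ℂ) *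
            E (Real.pi / 2 - 3 * b / 2)) := by
        have e2 := E_sub 0 (-(3 * b))
        have e3 : (0 - -(3 * b)) / 2 = 3 * b / 2 := by ring
        have e4 : Real.pi / 2 + (0 + -(3 * b)) / 2 = Real.pi / 2 - 3 * b / 2 := by ring
        rw [e3, e4] at e2
        have e5 : ((2 * d * Real.sin (3 * b / 2) : ℝ) : ℂ) * E (Real.pi / 2 - 3 * b / 2) =
            (d : ℂ) * (E 0 - E (-(3 * b))) := by
          rw [e2]; push_cast; ring
        rw [e5, hY, hX]
        have e6 : E (2 * b) * E (-(3 * b)) = - E c := by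
          rw [E_mul, hc]
          have : 2 * b + -(3 * b) = (Real.pi - b) + Real.pi - 2 * Real.pi := by ring
          rw [this, ← E_two_pi, sub_add_cancel, E_add_pi]
        rw [E_zero]
        linear_combination (d : ℂ) * e6
      rw [e1, norm_E_mul]
      refine norm_gt_one ?_
      rw [nsq2, e7]
      have h2 : 0 < 2 * d * Real.sin (3 * b / 2) := by positivity
      nlinarith [mul_nonneg h2.le (neg_nonneg.2 hcos), pow_pos h2 2]
  -- `Z`
  have hbb : E (-b) - E (-(2 * b)) =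
      ((2 * Real.sin (b / 2) : ℝ) : ℂ) * E (Real.pi / 2 - 3 * b / 2) := by
    rw [E_sub]
    have e3 : (-b - -(2 * b)) / 2 = b / 2 := by ring
    have e4 : Real.pi / 2 + (-b + -(2 * b)) / 2 = Real.pi / 2 - 3 * b / 2 := by ring
    rw [e3, e4]
  have hZ : gP c d (gP c d Y) = E p + (d : ℂ) +
      ((2 * d * Real.sin (b / 2) : ℝ) : ℂ) * E (Real.pi / 2 - 3 * b / 2) := by
    have e5 : ((2 * d * Real.sin (b / 2) : ℝ) : ℂ) * E (Real.pi / 2 - 3 * b / 2) =
        (d : ℂ) * (E (-b) - E (-(2 * b))) := by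
      rw [hbb]; push_cast; ring
    rw [e5]
    simp only [gP]
    have f1 : E c * E c = E (-(2 * b)) := by
      rw [E_mul, hc]
      have : Real.pi - b + (Real.pi - b) = -(2 * b) + 2 * Real.pi := by ring
      rw [this, E_two_pi]
    have f2 : E c = - E (-b) := by
      rw [hc]
      have : Real.pi - b = -b + Real.pi := by ring
      rw [this, E_add_pi]
    have f3 : E (-(2 * b)) * E (2 * b) = 1 := by rw [E_mul]; simp [E_zero]
    have f4 : E c * (E c * (Y - d) - d) = (E c * E c) * (Y - d) - E c * d := by ring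
    rw [f4, f1, f2, hY, hX]
    linear_combination ((d : ℂ) + E p) * f3
  have hZn : ‖gP c d (gP c d Y)‖ < 1 := by
    rw [hZ]
    apply P8.norm_lt_one
    rw [nsq3]
    have e8 : Real.cos p = - Real.sin (b / 2 + τ) := by
      have : p = -((b / 2 + τ) + Real.pi / 2) := by rw [hp]; ring
      rw [this, Real.cos_neg, Real.cos_add_pi_div_two]
    have e9 : Real.cos (Real.pi / 2 - 3 * b / 2) = Real.sin (3 * (b / 2)) := by
      rw [Real.cos_pi_div_two_sub]; congr 1; ring
    have e10 : Real.cos (b - τ) = (2 * Real.cos (b / 2) ^ 2 - 1) * Real.cos τ +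
        2 * Real.sin (b / 2) * Real.cos (b / 2) * Real.sin τ := by
      rw [Real.cos_sub]
      have h1 : Real.cos b = 2 * Real.cos (b / 2) ^ 2 - 1 := by
        rw [← Real.cos_two_mul]; congr 1; ring
      have h2 : Real.sin b = 2 * Real.sin (b / 2) * Real.cos (b / 2) := by
        rw [← Real.sin_two_mul]; congr 1; ring
      rw [h1, h2]
    rw [e7, e8, e9, e10, Real.sin_add, Real.sin_three_mul, hS]
    have hsq := Real.sin_sq_add_cos_sq (b / 2)
    set P := Real.cos (b / 2) with hPd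
    set Q := Real.sin (b / 2) with hQd
    set K := Real.cos τ with hKd
    have hQ2 : Q ^ 2 = 1 - P ^ 2 := by linarith
    have hid : 1 + d ^ 2 + (2 * d * Q) ^ 2 + 2 * d * -(Q * K + P * (6 * d / 5)) +
        2 * (2 * d * Q) * -((2 * P ^ 2 - 1) * K + 2 * Q * P * (6 * d / 5)) +
        2 * d * (2 * d * Q) * (3 * Q - 4 * Q ^ 3) =
        1 + d ^ 2 * (1 + 16 * P ^ 2 - 16 * P ^ 4 - 12 * P + 48 / 5 * P ^ 3) -
          2 * d * Q * K * (4 * P ^ 2 - 1) := by
      have h4 : Q ^ 4 = (1 - P ^ 2) ^ 2 := by rw [← hQ2]; ring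
      linear_combination (16 * d ^ 2 - 48 / 5 * d ^ 2 * P) * hQ2 - 16 * d ^ 2 * h4
    rw [hid]
    have hpoly : 1 + 16 * P ^ 2 - 16 * P ^ 4 - 12 * P + 48 / 5 * P ^ 3 ≤ 0 := by
      nlinarith [mul_nonneg (sub_nonneg.2 hx1.le) (sub_nonneg.2 hx2),
        mul_nonneg (mul_nonneg (sub_nonneg.2 hx1.le) (sub_nonneg.2 hx2)) (sq_nonneg P),
        mul_nonneg (mul_nonneg (sub_nonneg.2 hx1.le) (sub_nonneg.2 hx2)) (show 0 ≤ P by linarith)]
    have h2 : 0 < 2 * d * Q * K * (4 * P ^ 2 - 1) := by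
      have h3 : 0 < 4 * P ^ 2 - 1 := by nlinarith
      have hQ0 : 0 < Q := by linarith
      positivity
    nlinarith [mul_nonneg (sq_nonneg d) (neg_nonneg.2 hpoly)]
  have hcont : ContinuousAt (fun z => gP c d (gP c d (E (2 * b) * giP c d z))) (E a0) := by
    simp only [gP, giP]; fun_prop
  have hval : gP c d (gP c d (E (2 * b) * giP c d (E a0))) = gP c d (gP c d Y) := by rw [hgi]
  have F3 : ∀ᶠ z in 𝓝 (E a0), ‖gP c d (gP c d (E (2 * b) * giP c d z))‖ < 1 := by
    apply ev_lt (f := fun z => gP c d (gP c d (E (2 * b) * giP c d z))) hcont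
    show ‖gP c d (gP c d (E (2 * b) * giP c d (E a0)))‖ < 1
    rw [hval]
    exact hZn
  have F4 : ∀ᶠ z in 𝓝 (E a0), ¬ ‖gP c d (gP c d (E (2 * b) * giP c d z)) - (d : ℂ)‖ < 1 := by
    apply ev_gt (f := fun z => gP c d (gP c d (E (2 * b) * giP c d z)) - (d : ℂ))
    · exact hcont.sub continuousAt_const
    · show ¬ ‖gP c d (gP c d (E (2 * b) * giP c d (E a0))) - (d : ℂ)‖ ≤ 1
      rw [hval, hZ]
      have e1 : E p + (d : ℂ) + ((2 * d * Real.sin (b / 2) : ℝ) : ℂ) * E (Real.pi / 2 - 3 * b / 2)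
          - (d : ℂ) = E p + ((2 * d * Real.sin (b / 2) : ℝ) : ℂ) * E (Real.pi / 2 - 3 * b / 2) := by
        ring
      rw [e1]
      refine norm_gt_one ?_
      rw [nsq2, e7]
      have h2 : 0 < 2 * d * Real.sin (b / 2) := by positivity
      nlinarith [mul_nonneg h2.le (neg_nonneg.2 hcos), pow_pos h2 2]
  have F5 : ∀ᶠ z in 𝓝 (E a0), ¬ ‖gP c d (gP c d (E (2 * b) * giP c d z)) - (d : ℂ) * E b‖ < 1 := by
    apply ev_gt (f := fun z => gP c d (gP c d (E (2 * b) * giP c d z)) - (d : ℂ) * E b)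
    · exact hcont.sub continuousAt_const
    · show ¬ ‖gP c d (gP c d (E (2 * b) * giP c d (E a0))) - (d : ℂ) * E b‖ ≤ 1
      rw [hval, hZ]
      have e1 : E p + (d : ℂ) + ((2 * d * Real.sin (b / 2) : ℝ) : ℂ) * E (Real.pi / 2 - 3 * b / 2)
          - (d : ℂ) * E b = E p + ((4 * d * Real.sin (b / 2) * Real.sin b : ℝ) : ℂ) *
            E (-(b / 2)) := by
        have g1 := E_sub 0 b
        have g2 : (0 - b) / 2 = -(b / 2) := by ring
        have g3 : Real.pi / 2 + (0 + b) / 2 = Real.pi / 2 + b / 2 := by ring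
        rw [g2, g3, Real.sin_neg, E_zero] at g1
        have g4 := E_sub (Real.pi / 2 - 3 * b / 2) (Real.pi / 2 + b / 2)
        have g5 : (Real.pi / 2 - 3 * b / 2 - (Real.pi / 2 + b / 2)) / 2 = -b := by ring
        have g6 : Real.pi / 2 + (Real.pi / 2 - 3 * b / 2 + (Real.pi / 2 + b / 2)) / 2 =
            -(b / 2) + Real.pi := by ring
        rw [g5, g6, Real.sin_neg, E_add_pi] at g4
        push_cast at g1 g4 ⊢
        linear_combination (d : ℂ) * g1 + (2 * d * Complex.sin ((b : ℂ) / 2)) * g4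
      rw [e1]
      refine norm_gt_one ?_
      rw [nsq2]
      have e7 : Real.cos (p - -(b / 2)) = - Real.sin τ := by
        have : p - -(b / 2) = -(τ + Real.pi / 2) := by rw [hp]; ring
        rw [this, Real.cos_neg, Real.cos_add_pi_div_two]
      rw [e7, hS]
      have hsb : Real.sin b = 2 * Real.sin (b / 2) * Real.cos (b / 2) := by
        rw [← Real.sin_two_mul]; congr 1; ring
      have hsq := Real.sin_sq_add_cos_sq (b / 2)
      have hkey : 6 / 5 < 2 * Real.sin (b / 2) * Real.sin b := by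
        rw [hsb]
        have : 2 * Real.sin (b / 2) * (2 * Real.sin (b / 2) * Real.cos (b / 2)) =
            4 * Real.cos (b / 2) * (1 - Real.cos (b / 2) ^ 2) := by
          rw [← hsq]; ring
        rw [this]
        nlinarith
      have h2 : 0 < 4 * d * Real.sin (b / 2) * Real.sin b := by
        have : 0 < Real.sin b := Real.sin_pos_of_pos_of_lt_pi hb0 hbpi
        positivity
      have h3 : 2 * (6 * d / 5) < 4 * d * Real.sin (b / 2) * Real.sin b := by
        nlinarith
      nlinarith [mul_pos h2 (sub_pos.2 h3)]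
  -- the moving point
  obtain ⟨z, hz, z1, z2, z3, z4, z5⟩ := exists_in (F1.and (F2.and (F3.and (F4.and F5))))
  have hL1X : L1 (giP c d z) := hC'.g31 _ (z1 hz)
  have hYb : E (2 * b) * giP c d z = E b * (E b * giP c d z) := by
    rw [← mul_assoc, E_mul]; congr 2; ring
  have hnY2 : ¬ L2 (E (2 * b) * giP c d z) := by
    rw [hYb]
    exact L.not2_of (fun h => L.n12 _ h (L.r12 _ hL1X))
  have hnY3 : ¬ L3 (E (2 * b) * giP c d z) := fun h => z2 (hm3 _ h)
  have hYn : ‖E (2 * b) * giP c d z‖ < 1 := by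
    rw [norm_E_mul]
    exact L.in1 _ hL1X
  have hL1Y : L1 (E (2 * b) * giP c d z) := by
    rcases L.cov _ hYn with h | h | h
    · exact h
    · exact absurd h hnY2
    · exact absurd h hnY3
  have hgY := hC'.g13 _ hL1Y
  have hnZ3 : ¬ L3 (gP c d (gP c d (E (2 * b) * giP c d z))) := by
    intro h
    have h1 := hC'.g31 _ h
    rw [hgig] at h1
    exact L.n13 _ h1 hgY
  rcases L.cov _ z3 with h | h | h
  · exact z4 (hm1 _ h)
  · exact z5 (hm2 _ h)
  · exact hnZ3 h

end Pool.Agent.H89.OD
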