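import Pool.Agent.H89.OD.Cases
import Pool.Agent.H89.OD.L.H908R3_Disc_CaseR

/-!
# Open disc: case R (helper33)
-/

set_option autoImplicit false

namespace Pool.Agent.H89.OD

open Complex ComplexConjugate Filter Topology
open Pool.Agent.H908R3.Disc (E IsIso gP giP gR giR Par eta e2 E_mul E_zero norm_E E_re E_im E_add
  norm_E_mul norm_gt_one cos_lt_sin conj_E E_two_pi E_pi CR.norm3)

theorem pcaseR : CaseR := by
  intro b c e L1 L2 L3 hp h hb2 hc1 hc2
  have hl := h.lab
  obtain ⟨b0, bpi, e0, e3, cb, cbe, bpe⟩ := hp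
  have hpi := Real.pi_pos
  unfold CfgO at h
  simp only [Bool.false_eq_true, if_false] at h
  obtain ⟨d, hd⟩ : ∃ d : ℝ, d = 2 * Real.sin (e / 2) := ⟨_, rfl⟩
  rw [← hd] at h
  have hd0 : 0 < d := by
    have : 0 < Real.sin (e / 2) := Real.sin_pos_of_pos_of_lt_pi (by linarith) (by linarith)
    linarith
  have hsb : 0 < Real.sin b := Real.sin_pos_of_pos_of_lt_pi b0 bpi
  -- step 2
  have hs : gR c d (E (b / 2)) = E (c - b / 2) - (d : ℂ) * E c := by
    simp only [gR]
    rw [conj_E, mul_sub, E_mul, show c + -(b / 2) = c - b / 2 by ring]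
    ring
  have ht : E b * (E (c - b / 2) - (d : ℂ) * E c) = E (c + b / 2) - (d : ℂ) * E (b + c) := by
    rw [mul_sub, E_mul, show b + (c - b / 2) = c + b / 2 by ring, E_add b c]
    ring
  have hA : ∀ᶠ z in 𝓝 (E (b / 2)), ¬ L1 z := by
    have hT : (fun z => E b * gR c d z) (E (b / 2)) =
        E (c + b / 2) - (d : ℂ) * E (b + c) := by simp only [hs, ht]
    have g1 : ¬ ‖(E (c + b / 2) - (d : ℂ) * E (b + c)) - (d : ℂ)‖ ≤ 1 := by
      refine Pool.Agent.H908R3.Disc.CR.norm3 (d := -d) (d' := -d) (α := c + b / 2) (β := b + c)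
        (γ := 0) ?_ ?_
      · rw [E_zero]; push_cast; ring
      · have e1 : c + b / 2 - (b + c) = c / 2 - (b + c) / 2 := by ring
        have e2 : c + b / 2 - 0 = c / 2 + (b + c) / 2 := by ring
        have e3' : b + c - 0 = 2 * ((b + c) / 2) := by ring
        rw [e1, e2, e3', Real.cos_two_mul, Real.cos_sub, Real.cos_add]
        have hp1 : Real.cos ((b + c) / 2) < 0 :=
          Real.cos_neg_of_pi_div_two_lt_of_lt (by linarith) (by linarith)
        have hq1 : 0 < Real.cos (c / 2) :=
          Real.cos_pos_of_mem_Ioo ⟨by linarith, by linarith⟩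
        have h5 : 0 < d * (Real.cos (c / 2) * -Real.cos ((b + c) / 2)) :=
          mul_pos hd0 (mul_pos hq1 (by linarith))
        have h6 : 0 < (d * Real.cos ((b + c) / 2)) ^ 2 := by
          apply sq_pos_of_neg
          exact mul_neg_of_pos_of_neg hd0 hp1
        nlinarith
    have g3 : ¬ ‖(E (c + b / 2) - (d : ℂ) * E (b + c)) + (d : ℂ) * E c‖ ≤ 1 := by
      refine Pool.Agent.H908R3.Disc.CR.norm3 (d := -d) (d' := d) (α := c + b / 2) (β := b + c)
        (γ := c) ?_ ?_
      · push_cast; ring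
      · have e1 : c + b / 2 - (b + c) = -(b / 2) := by ring
        have e2 : c + b / 2 - c = b / 2 := by ring
        have e3' : b + c - c = b := by ring
        rw [e1, e2, e3', Real.cos_neg]
        have h5 : Real.cos b < 1 := by
          have h7 := Real.sin_sq_add_cos_sq b
          by_contra h8
          push Not at h8
          nlinarith
        have h6 : 0 < d ^ 2 * (1 - Real.cos b) := mul_pos (by positivity) (by linarith)
        nlinarith
    have v1 := ev_gt (f := fun z => z - (d : ℂ)) (p := E (c + b / 2) - (d : ℂ) * E (b + c))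
      (by fun_prop) g1
    have v3 := ev_gt (f := fun z => z + (d : ℂ) * E c)
      (p := E (c + b / 2) - (d : ℂ) * E (b + c)) (by fun_prop) g3
    filter_upwards [ev_comp (f := fun z => E b * gR c d z) (by unfold gR; fun_prop) hT
      (v1.and v3)] with z hz h1
    have h2 := h.g13 _ h1
    have hn1 : ¬ L1 (gR c d z) := fun h3 => h.n13 _ h3 h2
    have hn2 := hl.not2_of hn1
    have hnorm : ‖E b * gR c d z‖ < 1 := by
      rw [norm_E_mul]
      exact h.in3 _ h2
    rcases h.cov _ hnorm with h3 | h3 | h3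
    · have h4 := hl.m1 _ h3
      rw [← hd] at h4
      exact hz.1 h4
    · exact hn2 h3
    · have h4 := hl.m3 _ h3
      rw [← hd] at h4
      exact hz.2 h4
  -- step 3
  have hC : ∀ᶠ z in 𝓝 (E (3 * b / 2)), ¬ L1 z := by
    apply hl.not1 e0 e3
    apply cos_lt_sin e0 e3 <;> linarith
  have hBb : (fun z => E b * z) (E (b / 2)) = E (3 * b / 2) := by
    simp only
    rw [E_mul, show b + b / 2 = 3 * b / 2 by ring]
  have hC' := ev_comp (f := fun z => E b * z) (by fun_prop) hBb hC
  have hv' : giR c d (E (3 * b / 2)) = d + E (c - 3 * b / 2) := by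
    simp only [giR]
    rw [conj_E, E_mul, show c + -(3 * b / 2) = c - 3 * b / 2 by ring]
  have hw : E b * (E b * ((d : ℂ) + E (c - 3 * b / 2))) =
      E (c + b / 2) + (d : ℂ) * E (2 * b) := by
    rw [← mul_assoc, E_mul, mul_add, E_mul, show b + b + (c - 3 * b / 2) = c + b / 2 by ring,
      show b + b = 2 * b by ring]
    ring
  have hW : (fun z => E b * (E b * giR c d (E b * z))) (E (b / 2)) =
      E (c + b / 2) + (d : ℂ) * E (2 * b) := by
    simp only at hBb ⊢
    rw [hBb, hv', hw]
  have g1 : ¬ ‖(E (c + b / 2) + (d : ℂ) * E (2 * b)) - (d : ℂ)‖ ≤ 1 := by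
    refine Pool.Agent.H908R3.Disc.CR.norm3 (d := d) (d' := -d) (α := c + b / 2) (β := 2 * b)
      (γ := 0) ?_ ?_
    · rw [E_zero]; push_cast; ring
    · have e1 : c + b / 2 - 2 * b = (c - b / 2) - b := by ring
      have e2 : c + b / 2 - 0 = (c - b / 2) + b := by ring
      have e3' : 2 * b - 0 = 2 * b := by ring
      rw [e1, e2, e3', Real.cos_two_mul, Real.cos_sub, Real.cos_add]
      have hp1 : 0 ≤ Real.sin (c - b / 2) :=
        Real.sin_nonneg_of_nonneg_of_le_pi (by linarith) (by linarith)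
      have h6 : 0 ≤ d * (Real.sin (c - b / 2) * Real.sin b) :=
        mul_nonneg hd0.le (mul_nonneg hp1 hsb.le)
      have h7 : 0 < d ^ 2 * Real.sin b ^ 2 := by positivity
      have h8 := Real.sin_sq_add_cos_sq b
      have h9 : Real.cos b ^ 2 = 1 - Real.sin b ^ 2 := by linarith
      rw [h9]
      nlinarith
  have g3 : ¬ ‖(E (c + b / 2) + (d : ℂ) * E (2 * b)) + (d : ℂ) * E c‖ ≤ 1 := by
    refine Pool.Agent.H908R3.Disc.CR.norm3 (d := d) (d' := d) (α := c + b / 2) (β := 2 * b)
      (γ := c) ?_ ?_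
    · rfl
    · have e1' : c + b / 2 - 2 * b = -((b - c / 2) + (b - c) / 2) := by ring
      have e2 : c + b / 2 - c = (b - c / 2) - (b - c) / 2 := by ring
      have e3' : 2 * b - c = 2 * (b - c / 2) := by ring
      rw [e1', e2, e3', Real.cos_neg, Real.cos_two_mul, Real.cos_sub, Real.cos_add]
      have hp1 : 0 < Real.cos (b - c / 2) :=
        Real.cos_pos_of_mem_Ioo ⟨by linarith, by linarith⟩
      have hq1 : 0 < Real.cos ((b - c) / 2) :=
        Real.cos_pos_of_mem_Ioo ⟨by linarith, by linarith⟩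
      have h6 : 0 < d * (Real.cos (b - c / 2) * Real.cos ((b - c) / 2)) :=
        mul_pos hd0 (mul_pos hp1 hq1)
      have h7 : 0 < (d * Real.cos (b - c / 2)) ^ 2 := by positivity
      nlinarith
  have v1 := ev_gt (f := fun z => z - (d : ℂ)) (p := E (c + b / 2) + (d : ℂ) * E (2 * b))
    (by fun_prop) g1
  have v3 := ev_gt (f := fun z => z + (d : ℂ) * E c)
    (p := E (c + b / 2) + (d : ℂ) * E (2 * b)) (by fun_prop) g3
  obtain ⟨z, hz, hzA, hzC, hzW⟩ := exists_in (hA.and (hC'.and
    (ev_comp (f := fun z => E b * (E b * giR c d (E b * z))) (by unfold giR; fun_prop) hW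
      (v1.and v3))))
  have hB := hl.not2_of hzA
  have hD : L3 (E b * z) := by
    rcases h.cov (E b * z) (by rw [norm_E_mul]; exact hz) with h3 | h3 | h3
    · exact absurd h3 hzC
    · exact absurd h3 hB
    · exact h3
  have hv := h.g31 _ hD
  have h1 := h.r12 _ hv
  have h2 : ¬ L1 (E b * giR c d (E b * z)) := fun h3 => h.n12 _ h3 h1
  have h3 := hl.not2_of h2
  have hnorm : ‖E b * (E b * giR c d (E b * z))‖ < 1 := by
    rw [norm_E_mul, norm_E_mul]
    exact h.in1 _ hv
  rcases h.cov _ hnorm with h4 | h4 | h4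
  · have h5 := hl.m1 _ h4
    rw [← hd] at h5
    exact hzW.1 h5
  · exact h3 h4
  · have h5 := hl.m3 _ h4
    rw [← hd] at h5
    exact hzW.2 h5

end Pool.Agent.H89.OD
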