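import Pool.Agent.H89.OD.Cases
import Pool.Agent.H89.OD.L.H908R3_Disc_CaseR8

/-!
# Open disc: the orientation reversing case `c = 2 b - π`, `b < 2 π / 3` (helper56)
-/

set_option autoImplicit false

namespace Pool.Agent.H89.OD

open Complex ComplexConjugate Filter Topology
open Pool.Agent.H908R3.Disc (E IsIso gP giP gR giR Par eta e2 E_mul E_zero norm_E E_re E_im E_add
  norm_E_mul norm_gt_one cos_lt_sin conj_E E_two_pi E_pi E_add_pi)

theorem gR_cont (c d : ℝ) : Continuous (gR c d) := by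
  unfold gR
  fun_prop

theorem giR_cont (c d : ℝ) : Continuous (giR c d) := by
  unfold giR
  fun_prop

theorem pcaseR8 : CaseR8 := by
  intro b c e L1 L2 L3 he he' hbe hcfg hb hc hb3
  have hpi := Real.pi_pos
  have hlab := hcfg.lab
  have hb0 : 0 < b := by linarith
  have hbpi : b < Real.pi := by linarith
  unfold CfgO at hcfg
  simp only [Bool.false_eq_true, if_false] at hcfg
  have hm3 := hlab.m3
  have hex3 : ∀ᶠ z in 𝓝 (E (3 * Real.pi / 2)), ‖z‖ < 1 → L3 z :=
    hlab.ex3 he he' hb0 hbpi (by linarith) (by linarith)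
  have hdpos : 0 < 2 * Real.sin (e / 2) := by
    have := Real.sin_pos_of_pos_of_lt_pi (x := e / 2) (by linarith) (by linarith)
    linarith
  generalize 2 * Real.sin (e / 2) = d at hcfg hm3 hdpos
  obtain ⟨p, hp⟩ : ∃ p, p = Real.cos b := ⟨_, rfl⟩
  obtain ⟨q, hq⟩ : ∃ q, q = Real.sin b := ⟨_, rfl⟩
  have hpq : p ^ 2 + q ^ 2 = 1 := by rw [hp, hq]; exact Real.cos_sq_add_sin_sq b
  have hqpos : 0 < q := by rw [hq]; exact Real.sin_pos_of_pos_of_lt_pi hb0 hbpi
  have hppos : 0 < 1 + 2 * p := by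
    have h1 : Real.cos (2 * Real.pi / 3) < Real.cos b :=
      Real.cos_lt_cos_of_nonneg_of_le_pi hb0.le (by linarith) hb3
    have h2 : Real.cos (2 * Real.pi / 3) = -(1 / 2) := by
      have : 2 * Real.pi / 3 = Real.pi - Real.pi / 3 := by ring
      rw [this, Real.cos_pi_sub, Real.cos_pi_div_three]
    rw [h2, ← hp] at h1
    linarith
  have hEb : E b = ⟨p, q⟩ := by
    rw [hp, hq]
    exact Complex.ext (E_re b) (E_im b)
  have hEnb : E (-b) = ⟨p, -q⟩ := by
    rw [hp, hq]
    apply Complex.ext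
    · rw [E_re, Real.cos_neg]
    · rw [E_im, Real.sin_neg]
  have hEc : E c = ⟨-(p ^ 2 - q ^ 2), -(2 * p * q)⟩ := by
    have h1 : E c = - (E b * E b) := by
      rw [E_mul]
      have h2 : b + b = c + Real.pi := by rw [hc]; ring
      rw [h2, E_add_pi, neg_neg]
    rw [h1, hEb]
    apply Complex.ext
    · simp only [Complex.neg_re, Complex.mul_re]; ring
    · simp only [Complex.neg_im, Complex.mul_im]; ring
  have hEE : E b * E (-b) = 1 := by rw [E_mul, add_neg_cancel, E_zero]
  have hcc : E c * E (-c) = 1 := by rw [E_mul, add_neg_cancel, E_zero]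
  have hbbc : E (-b) * E (-b) * E c = -1 := by
    rw [E_mul, E_mul]
    have h2 : -b + -b + c = -Real.pi := by rw [hc]; ring
    rw [h2]
    have h3 := E_add_pi (-Real.pi)
    rw [neg_add_cancel, E_zero] at h3
    rw [h3]
    ring
  -- the limit point
  have hu0 : giR c d (E (3 * Real.pi / 2)) = ⟨d + 2 * p * q, -(p ^ 2 - q ^ 2)⟩ := by
    rw [Pool.Agent.H908R3.Disc.R8.E_three]
    unfold giR
    rw [hEc]
    apply Complex.ext <;> simp
  -- first inequality
  have hA : ∀ᶠ z in 𝓝 (E (3 * Real.pi / 2)), ¬ ‖E (-b) * giR c d z + (d : ℂ) * E c‖ < 1 := by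
    apply ev_gt (f := fun z => E (-b) * giR c d z + (d : ℂ) * E c)
    · have := giR_cont c d
      fun_prop
    · intro h1
      refine norm_gt_one ?_ h1
      simp only [hu0]
      apply Pool.Agent.H908R3.Disc.R8.ineq hpq hqpos hppos hdpos
      · rw [hEnb, hEc]
        simp only [Complex.add_re, Complex.mul_re, Complex.ofReal_re, Complex.ofReal_im]
        linear_combination q * hpq
      · rw [hEnb, hEc]
        simp only [Complex.add_im, Complex.mul_im, Complex.ofReal_re, Complex.ofReal_im]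
        linear_combination (-p) * hpq
  -- second inequality
  have hB : ∀ᶠ z in 𝓝 (E (3 * Real.pi / 2)),
      ¬ ‖E (-b) * gR c d (E (-b) * (E (-b) * giR c d z)) + (d : ℂ) * E c‖ < 1 := by
    apply ev_gt (f := fun z => E (-b) * gR c d (E (-b) * (E (-b) * giR c d z)) + (d : ℂ) * E c)
    · have := giR_cont c d
      have := gR_cont c d
      fun_prop
    · intro h1
      simp only [hu0] at h1
      obtain ⟨w, hw⟩ : ∃ w : ℂ, w = E (-b) * (E (-b) * ⟨d + 2 * p * q, -(p ^ 2 - q ^ 2)⟩) :=
        ⟨_, rfl⟩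
      rw [← hw] at h1
      have h2 : E (-b) * gR c d w + (d : ℂ) * E c = E c * (E (-b) * (conj w - d + d * E b)) := by
        unfold gR
        linear_combination (-(d : ℂ) * E c) * hEE
      rw [h2, norm_E_mul, norm_E_mul] at h1
      refine norm_gt_one ?_ h1
      have hwv : conj w = ⟨d * (p ^ 2 - q ^ 2), 2 * d * p * q + 1⟩ := by
        rw [hw, map_mul, map_mul, conj_E, neg_neg, hEb]
        apply Complex.ext
        · simp only [Complex.mul_re, Complex.mul_im, Complex.conj_re, Complex.conj_im]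
          ring
        · simp only [Complex.mul_re, Complex.mul_im, Complex.conj_re, Complex.conj_im]
          linear_combination (p ^ 2 + q ^ 2 + 1) * hpq
      apply Pool.Agent.H908R3.Disc.R8.ineq2 (p := p) (q := q) (d := d) hqpos hppos hdpos
      · rw [hwv, hEb]
        simp only [Complex.add_re, Complex.sub_re, Complex.mul_re, Complex.ofReal_re,
          Complex.ofReal_im]
        ring
      · rw [hwv, hEb]
        simp only [Complex.add_im, Complex.sub_im, Complex.mul_im, Complex.ofReal_re,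
          Complex.ofReal_im]
        ring
  obtain ⟨z, hz, z1, z2, z3⟩ := exists_in (hex3.and (hA.and hB))
  have hz3 : L3 z := z1 hz
  -- the point `u`
  obtain ⟨u, hu⟩ : ∃ u : ℂ, u = giR c d z := ⟨_, rfl⟩
  rw [← hu] at z2 z3
  have hu1 : L1 u := by rw [hu]; exact hcfg.g31 _ hz3
  -- the point `r`
  obtain ⟨r, hr⟩ : ∃ r : ℂ, r = E (-b) * u := ⟨_, rfl⟩
  rw [← hr] at z2 z3
  have hrn : ‖r‖ < 1 := by rw [hr, norm_E_mul]; exact hcfg.in1 u hu1
  have hr1 : ¬ L1 r := by
    intro h
    have h1 := hcfg.r12 _ h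
    rw [hr, ← mul_assoc, hEE, one_mul] at h1
    exact hcfg.n12 u hu1 h1
  have hr3 : ¬ L3 r := fun h => z2 (hm3 r h)
  have hr2 : L2 r := by
    rcases hcfg.cov r hrn with h | h | h
    · exact absurd h hr1
    · exact h
    · exact absurd h hr3
  -- the point `w`
  obtain ⟨w, hw⟩ : ∃ w : ℂ, w = E (-b) * r := ⟨_, rfl⟩
  rw [← hw] at z3
  have hw1 : L1 w := by rw [hw]; exact hcfg.r21 _ hr2
  have hg3 : L3 (gR c d w) := hcfg.g13 _ hw1
  obtain ⟨t, ht⟩ : ∃ t : ℂ, t = E (-b) * gR c d w := ⟨_, rfl⟩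
  rw [← ht] at z3
  have htn : ‖t‖ < 1 := by rw [ht, norm_E_mul]; exact hcfg.in3 _ hg3
  have ht1 : ¬ L1 t := by
    intro h
    have h1 := hcfg.r12 _ h
    rw [ht, ← mul_assoc, hEE, one_mul] at h1
    exact hcfg.n23 _ h1 hg3
  have ht2 : ¬ L2 t := by
    intro h
    have h1 := hcfg.r21 _ h
    have h2 : E (-b) * t = giR c d u := by
      rw [ht]
      unfold gR giR
      rw [← mul_assoc, ← mul_assoc, hbbc, hw, hr, map_mul, map_mul, conj_E, neg_neg]
      have h3 : E b * E b * (E (-b) * E (-b) * E c) = E c := by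
        linear_combination (E c * (E b * E (-b) + 1)) * hEE
      rw [hbbc] at h3
      linear_combination (conj u) * h3
    rw [h2] at h1
    have h4 := hcfg.g13 _ h1
    have h5 : gR c d (giR c d u) = u := by
      unfold gR giR
      rw [map_add, Complex.conj_ofReal, map_mul, Complex.conj_conj, conj_E]
      linear_combination u * hcc
    rw [h5] at h4
    exact hcfg.n13 u hu1 h4
  have ht3 : ¬ L3 t := fun h => z3 (hm3 t h)
  rcases hcfg.cov t htn with h | h | h
  · exact ht1 h
  · exact ht2 h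
  · exact ht3 h

end Pool.Agent.H89.OD
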