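import Pool.Agent.H89.OD.Cases
import Pool.Agent.H89.OD.L.H908R3_Disc_CaseR9

/-!
# Case R9 for the open disc
-/

set_option autoImplicit false

namespace Pool.Agent.H89.OD

open Complex ComplexConjugate Filter Topology
open Pool.Agent.H908R3.Disc (E IsIso gP giP gR giR Par eta e2 E_mul E_zero norm_E E_re E_im E_add
  norm_E_mul norm_gt_one cos_lt_sin conj_E E_two_pi E_add_pi E_eq)

theorem cont_gR (c d : ℝ) : Continuous (gR c d) := by
  unfold gR
  exact continuous_const.mul (Complex.continuous_conj.sub continuous_const)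

theorem cont_giR (c d : ℝ) : Continuous (giR c d) := by
  unfold giR
  exact continuous_const.add (continuous_const.mul Complex.continuous_conj)

theorem pcaseR9 : CaseR9 := by
  intro b c e L1 L2 L3 hp h hc hb
  have hlab := h.lab
  have hpi := Real.pi_pos
  have he := hp.e0
  have he3 := hp.e3
  have hb0 := hp.b0
  have hbpi := hp.bpi
  have hcb := hp.cb
  have hcbe := hp.cbe
  unfold CfgO at h
  simp only [Bool.false_eq_true, if_false] at h
  obtain ⟨d, hd⟩ : ∃ d : ℝ, d = 2 * Real.sin (e / 2) := ⟨_, rfl⟩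
  rw [← hd] at h
  have hm1 : ∀ x, L1 x → ‖x - (d : ℂ)‖ < 1 := by
    intro x hx
    rw [hd]
    exact hlab.m1 x hx
  have hd0 : 0 < d := by
    have := Real.sin_pos_of_pos_of_lt_pi (x := e / 2) (by linarith) (by linarith)
    rw [hd]
    linarith
  have hS : 0 < Real.sin b := Real.sin_pos_of_pos_of_lt_pi hb0 hbpi
  have hC : 1 + 2 * Real.cos b < 0 := by
    have h1 : Real.cos b < Real.cos (2 * Real.pi / 3) :=
      Real.cos_lt_cos_of_nonneg_of_le_pi (by linarith) hbpi.le hb
    have h2 : Real.cos (2 * Real.pi / 3) = -(1 / 2) := by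
      have h3 : 2 * Real.pi / 3 = Real.pi - Real.pi / 3 := by ring
      rw [h3, Real.cos_pi_sub, Real.cos_pi_div_three]
    linarith
  have hCS : Real.cos b ^ 2 + Real.sin b ^ 2 = 1 := Real.cos_sq_add_sin_sq b
  have hBB : E b * E (-b) = 1 := by rw [E_mul]; simp [E_zero]
  have hCC : E c * E (-c) = 1 := by rw [E_mul]; simp [E_zero]
  have hconj : conj (E b) = E (-b) := conj_E b
  have hEc : E c = -(E b * E b) := by
    have h1 : E (c + Real.pi) = - E c := E_add_pi c
    have h2 : c + Real.pi = b + b := by rw [hc]; ring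
    rw [h2, E_add] at h1
    rw [h1, neg_neg]
  have hEI : E (Real.pi / 2) = Complex.I := by
    rw [E_eq]; simp
  have hcu : conj (E (b - Real.pi / 2)) = Complex.I * E (-b) := by
    rw [conj_E]
    have h1 : -(b - Real.pi / 2) = Real.pi / 2 + -b := by ring
    rw [h1, E_add, hEI]
  have hI2 : Complex.I * Complex.I = -1 := Complex.I_mul_I
  -- the limit points
  have hGe : gR c d (E (b - Real.pi / 2)) = -Complex.I * E b + d * (E b) ^ 2 := by
    unfold gR
    rw [hcu, hEc]
    linear_combination (-Complex.I * E b) * hBB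
  have hte : E b * gR c d (E (b - Real.pi / 2)) = -Complex.I * (E b) ^ 2 + d * (E b) ^ 3 := by
    rw [hGe]; ring
  have hze : giR c d (E b * gR c d (E (b - Real.pi / 2))) = d - Complex.I - d * E (-b) := by
    rw [hte]
    unfold giR
    rw [hEc]
    simp only [map_add, map_mul, map_pow, map_neg, Complex.conj_I, Complex.conj_ofReal, hconj]
    linear_combination (-Complex.I * (E b * E (-b) + 1) - d * E (-b) * (E b * E (-b) + 1)) * hBB
  have hye : E b * (E b * giR c d (E b * gR c d (E (b - Real.pi / 2)))) =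
      -Complex.I * (E b) ^ 2 + d * ((E b) ^ 2 - E b) := by
    rw [hze]
    linear_combination (-d * E b) * hBB
  -- the facts near the base point
  have hu := hlab.ex1 he he3 hb0 hbpi (by linarith) hcbe (a := b - Real.pi / 2) (by linarith)
    (by linarith)
  have ht1 : ∀ᶠ x in 𝓝 (E (b - Real.pi / 2)), ¬ ‖E b * gR c d x - d‖ < 1 := by
    refine ev_gt (f := fun x => E b * gR c d x - d)
      ((continuous_const.mul (cont_gR c d)).sub continuous_const).continuousAt ?_
    rw [hte]
    refine norm_gt_one ?_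
    have hre : (-Complex.I * (E b) ^ 2 + d * (E b) ^ 3 - (d : ℂ)).re = 2 * Real.cos b * Real.sin b
        + d * (Real.cos b ^ 3 - 3 * Real.cos b * Real.sin b ^ 2 - 1) := by
      simp only [pow_succ, pow_zero, one_mul, Complex.sub_re, Complex.add_re, Complex.mul_re,
        Complex.mul_im, Complex.neg_re, Complex.neg_im, Complex.I_re, Complex.I_im,
        Complex.ofReal_re, Complex.ofReal_im, E_re, E_im]
      ring
    have him : (-Complex.I * (E b) ^ 2 + d * (E b) ^ 3 - (d : ℂ)).im =
        -(Real.cos b ^ 2 - Real.sin b ^ 2)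
        + d * (3 * Real.cos b ^ 2 * Real.sin b - Real.sin b ^ 3) := by
      simp only [pow_succ, pow_zero, one_mul, Complex.sub_im, Complex.add_im, Complex.mul_re,
        Complex.mul_im, Complex.neg_re, Complex.neg_im, Complex.I_re, Complex.I_im,
        Complex.ofReal_re, Complex.ofReal_im, E_re, E_im]
      ring
    rw [hre, him]
    refine Pool.Agent.H908R3.Disc.R9.aux _ _ _ _ _ hCS hd0 hS hC ?_
    linear_combination (-Real.sin b * (Real.cos b ^ 2 + Real.sin b ^ 2 + 1)) * hCS
  have hy1 : ∀ᶠ x in 𝓝 (E (b - Real.pi / 2)),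
      ¬ ‖E b * (E b * giR c d (E b * gR c d x)) - d‖ < 1 := by
    refine ev_gt (f := fun x => E b * (E b * giR c d (E b * gR c d x)) - d)
      ((continuous_const.mul (continuous_const.mul ((cont_giR c d).comp
        (continuous_const.mul (cont_gR c d))))).sub continuous_const).continuousAt ?_
    rw [hye]
    refine norm_gt_one ?_
    have hre : (-Complex.I * (E b) ^ 2 + d * ((E b) ^ 2 - E b) - (d : ℂ)).re =
        2 * Real.cos b * Real.sin b
        + d * (Real.cos b ^ 2 - Real.sin b ^ 2 - Real.cos b - 1) := by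
      simp only [pow_succ, pow_zero, one_mul, Complex.sub_re, Complex.add_re, Complex.mul_re,
        Complex.mul_im, Complex.neg_re, Complex.neg_im, Complex.I_re, Complex.I_im,
        Complex.sub_im, Complex.ofReal_re, Complex.ofReal_im, E_re, E_im]
      ring
    have him : (-Complex.I * (E b) ^ 2 + d * ((E b) ^ 2 - E b) - (d : ℂ)).im =
        -(Real.cos b ^ 2 - Real.sin b ^ 2)
        + d * (2 * Real.cos b * Real.sin b - Real.sin b) := by
      simp only [pow_succ, pow_zero, one_mul, Complex.sub_im, Complex.add_im, Complex.mul_re,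
        Complex.mul_im, Complex.neg_re, Complex.neg_im, Complex.I_re, Complex.I_im,
        Complex.sub_re, Complex.ofReal_re, Complex.ofReal_im, E_re, E_im]
      ring
    rw [hre, him]
    refine Pool.Agent.H908R3.Disc.R9.aux _ _ _ _ _ hCS hd0 hS hC ?_
    linear_combination (-Real.sin b) * hCS
  obtain ⟨x, hx, hxu, hxt, hxy⟩ := exists_in (hu.and (ht1.and hy1))
  -- the argument for `x`
  have hG : L3 (gR c d x) := h.g13 _ (hxu hx)
  have htn : ‖E b * gR c d x‖ < 1 := by
    rw [norm_E_mul]
    exact h.in3 _ hG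
  have ht2 : ¬ L2 (E b * gR c d x) := hlab.not2_of (fun h1 => h.n13 _ h1 hG)
  have ht1' : ¬ L1 (E b * gR c d x) := fun h1 => hxt (hm1 _ h1)
  have ht3 : L3 (E b * gR c d x) := by
    rcases h.cov _ htn with h1 | h1 | h1
    · exact absurd h1 ht1'
    · exact absurd h1 ht2
    · exact h1
  have hz : L1 (giR c d (E b * gR c d x)) := h.g31 _ ht3
  have hEz2 := h.r12 _ hz
  have hEz1 : ¬ L1 (E b * giR c d (E b * gR c d x)) := fun h1 => h.n12 _ h1 hEz2
  have hyn : ‖E b * (E b * giR c d (E b * gR c d x))‖ < 1 := by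
    rw [norm_E_mul, norm_E_mul]
    exact h.in1 _ hz
  have hy2 : ¬ L2 (E b * (E b * giR c d (E b * gR c d x))) := hlab.not2_of hEz1
  have hy1' : ¬ L1 (E b * (E b * giR c d (E b * gR c d x))) := fun h1 => hxy (hm1 _ h1)
  have hy3 : ¬ L3 (E b * (E b * giR c d (E b * gR c d x))) := by
    intro h1
    have h2 := h.g31 _ h1
    have h3 : giR c d (E b * (E b * giR c d (E b * gR c d x))) = E (-b) * gR c d x := by
      obtain ⟨G, hG⟩ : ∃ G, G = gR c d x := ⟨_, rfl⟩
      rw [← hG]
      unfold giR
      have hcc : conj (E c) = E (-c) := conj_E c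
      have hconj' : conj (E (-b)) = E b := by rw [conj_E, neg_neg]
      simp only [map_add, map_mul, Complex.conj_ofReal, Complex.conj_conj, hconj, hconj', hcc]
      have hx1 : E c * (E (-b) * E (-b)) = -1 := by
        rw [hEc]
        linear_combination (-(E b * E (-b)) - 1) * hBB
      linear_combination (d : ℂ) * hx1 + (E (-b) ^ 2 * E b * G) * hCC + (E (-b) * G) * hBB
    rw [h3] at h2
    have h4 := h.r12 _ h2
    rw [← mul_assoc, hBB, one_mul] at h4
    exact h.n23 _ h4 hG
  rcases h.cov _ hyn with h1 | h1 | h1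
  · exact hy1' h1
  · exact hy2 h1
  · exact hy3 h1

end Pool.Agent.H89.OD
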