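import Pool.Agent.H89.OD.Easy
import Pool.Agent.H89.OD.Outer
import Pool.Agent.H89.OD.PTaskD
import Pool.Agent.H89.OD.PCase2
import Pool.Agent.H89.OD.PCase3
import Pool.Agent.H89.OD.PCase4
import Pool.Agent.H89.OD.PCase5
import Pool.Agent.H89.OD.PCase6
import Pool.Agent.H89.OD.PCase7
import Pool.Agent.H89.OD.PCase8
import Pool.Agent.H89.OD.PCase9
import Pool.Agent.H89.OD.PCaseR
import Pool.Agent.H89.OD.PCaseR8
import Pool.Agent.H89.OD.PCaseR9

/-!
# The open disc cannot be split into three congruent pieces: assembly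
-/

set_option autoImplicit false

namespace Pool.Agent.H89.OD

theorem final :
    ¬ (∃ A B C : Set (EuclideanSpace ℝ (Fin 2)),
      A ∪ B ∪ C = Metric.ball (0 : EuclideanSpace ℝ (Fin 2)) 1 ∧
      Disjoint A B ∧ Disjoint A C ∧ Disjoint B C ∧
      (∃ f : EuclideanSpace ℝ (Fin 2) ≃ᵢ EuclideanSpace ℝ (Fin 2), f '' A = B) ∧
      (∃ g : EuclideanSpace ℝ (Fin 2) ≃ᵢ EuclideanSpace ℝ (Fin 2), g '' A = C)) :=
  transfer (core_of (taskD (core3 mirror case0 case1 pcase2 pcase3 pcase4 pcase5 pcase6 pcase7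
    pcase8 pcase9 pcaseR pcaseR8 pcaseR9 caseT)))

end Pool.Agent.H89.OD
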